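import Pool.Agent.H72.AAP.CUH

/-!
From cube free sets of exceptional points to tuples, for families of sets of points which may grow
with the height.
-/

set_option autoImplicit false

open Polynomial Finset Filter

namespace Pool.Agent.H72.AAP

open Pool.Agent
open Pool.Agent.H72.BF

/-- a family of sets of complex numbers, increasing with the height, of polynomial size, for which
the sets of exceptional points are free of large cubes -/
structure CFam (κ : ℕ → ℕ → ℕ) (Y : ℝ → Set ℂ) : Prop where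
  mono : ∀ H H' : ℝ, 2 ≤ H → H ≤ H' → Y H ⊆ Y H'
  bdd : ∃ B : ℝ, ∀ H : ℝ, 2 ≤ H → ∀ z ∈ Y H, ‖z‖ ≤ B * H
  cub : ∀ (r d : ℕ) (A : ℝ), ∃ C : ℝ, 0 < C ∧ ∀ H : ℝ, 2 ≤ H → ∀ ξ : Fin r → ℂ, (∀ i, ‖ξ i‖ ≤ H) →
    CubeFree (κ r d) {z : ℂ | z ∈ Y H ∧ badR ξ d A C H z}

open Classical in
/-- few exceptional tuples -/
theorem aapn_fam (κ : ℕ → ℕ → ℕ) (r n d : ℕ) : ∃ κ' : ℕ, ∀ Y : ℝ → Set ℂ, CFam κ Y → ∀ A : ℝ,
    ∃ C : ℝ, 0 < C ∧ ∀ H : ℝ, 2 ≤ H → ∀ ξ : Fin r → ℂ, (∀ i, ‖ξ i‖ ≤ H) →
    ∀ (X : Finset ℂ) (ε : ℝ), (∀ z ∈ X, z ∈ Y H) → 0 ≤ ε →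
    (∀ B : Set ℂ, CubeFree κ' B → (Set.ncard {z : ℂ | z ∈ X ∧ z ∈ B} : ℝ) ≤ ε * X.card) →
    (Set.ncard {a : Fin n → ℂ | (∀ i, a i ∈ X) ∧ badRN ξ d A C H a} : ℝ) ≤
      n * ε * (X.card : ℝ) ^ n := by
  induction n with
  | zero =>
    refine ⟨0, fun Y hY A => ⟨max A 1, by positivity, fun H hH ξ _ X ε _ _ _ => ?_⟩⟩
    have : {a : Fin 0 → ℂ | (∀ i, a i ∈ X) ∧ badRN ξ d A (max A 1) H a} = ∅ := by
      ext a
      simp only [Set.mem_ofPred_eq, Set.mem_empty_iff_false, iff_false, not_and]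
      intro _
      exact not_badRN_zero ξ d A _ H (le_max_left _ _) hH a
    rw [this]
    simp
  | succ n ih =>
    obtain ⟨k1, h1⟩ := ih
    refine ⟨max k1 (κ (r + n) d), ?_⟩
    intro Y hY A
    obtain ⟨C1, hC1, hG1⟩ := h1 Y hY A
    obtain ⟨B, hB⟩ := hY.bdd
    obtain ⟨c0, hc0⟩ := pow_unbounded_of_one_lt B (by norm_num : (1 : ℝ) < 2)
    set c : ℝ := (c0 : ℝ) + 1 with hc
    have hc1 : 1 ≤ c := by
      have : (0 : ℝ) ≤ c0 := Nat.cast_nonneg _
      linarith
    obtain ⟨C2, hC2, hG2⟩ := hY.cub (r + n) d (C1 / c)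
    refine ⟨c * C2, by positivity, fun H hH ξ hξ X ε hX hε hcub => ?_⟩
    have hG1 := hG1 H hH ξ hξ X ε hX hε (fun B hB => hcub B (hB.mono (le_max_left _ _)))
    have hH0 : (0 : ℝ) < H := by linarith
    have hHc : H ≤ H ^ c := by
      calc H = H ^ (1 : ℝ) := (Real.rpow_one H).symm
        _ ≤ H ^ c := Real.rpow_le_rpow_of_exponent_le (by linarith) hc1
    have hBc : B * H ≤ H ^ c := by
      have h3 : (2 : ℝ) ^ c0 ≤ H ^ c0 := pow_le_pow_left₀ (by norm_num) hH c0
      have h4 : H ^ c = H ^ c0 * H := by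
        rw [hc, Real.rpow_add hH0, Real.rpow_natCast, Real.rpow_one]
      rw [h4]
      exact mul_le_mul_of_nonneg_right (by linarith) hH0.le
    have hG3 : ∀ a' : Fin n → ℂ, (∀ i, a' i ∈ X) →
        ((X.filter (fun z => badR (Fin.append ξ a') d C1 (c * C2) H z)).card : ℝ) ≤
          ε * X.card := by
      intro a' ha'
      have h2' := hG2 (H ^ c) (by linarith) (Fin.append ξ a') (by
        intro i
        refine Fin.addCases (fun i => ?_) (fun i => ?_) i
        · rw [Fin.append_left]; exact (hξ i).trans hHc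
        · rw [Fin.append_right]; exact (hB H hH _ (hX _ (ha' i))).trans hBc)
      have h3 := hcub _ (h2'.mono (le_max_right k1 (κ (r + n) d)))
      refine le_trans ?_ h3
      rw [← Set.ncard_coe_finset]
      have h5 : (↑(X.filter (fun z => badR (Fin.append ξ a') d C1 (c * C2) H z)) : Set ℂ) ⊆
          {z : ℂ | z ∈ X ∧ z ∈ {z : ℂ | z ∈ Y (H ^ c) ∧
            badR (Fin.append ξ a') d (C1 / c) C2 (H ^ c) z}} := by
        intro z hz
        simp only [Finset.coe_filter, Set.mem_ofPred_eq] at hz ⊢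
        exact ⟨hz.1, hY.mono H _ hH hHc (hX z hz.1), badR_scale _ d C1 C2 H c z hH hc1 hz.2⟩
      have h6 : {z : ℂ | z ∈ X ∧ z ∈ {z : ℂ | z ∈ Y (H ^ c) ∧
            badR (Fin.append ξ a') d (C1 / c) C2 (H ^ c) z}}.Finite :=
        (Finset.finite_toSet X).subset fun z hz => hz.1
      exact_mod_cast Set.ncard_le_ncard h5 h6
    set XX : Finset (Fin n → ℂ) := Fintype.piFinset (fun _ => X) with hXX
    set Bf : Finset (Fin (n + 1) → ℂ) :=
      (Fintype.piFinset (fun _ => X)).filter (fun a => badRN ξ d A (c * C2) H a) with hBf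
    set Gf : Finset (Fin n → ℂ) := XX.filter (fun a => badRN ξ d A C1 H a) with hGf
    have e1 : {a : Fin (n + 1) → ℂ | (∀ i, a i ∈ X) ∧ badRN ξ d A (c * C2) H a} =
        (Bf : Set _) := by
      ext a
      simp [hBf, Fintype.mem_piFinset]
    have e2 : {a : Fin n → ℂ | (∀ i, a i ∈ X) ∧ badRN ξ d A C1 H a} = (Gf : Set _) := by
      ext a
      simp [hGf, hXX, Fintype.mem_piFinset]
    rw [e1, Set.ncard_coe_finset]
    rw [e2, Set.ncard_coe_finset] at hG1
    have hmaps : ∀ a ∈ Bf, Fin.init a ∈ XX := by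
      intro a haB
      rw [hBf, Finset.mem_filter, Fintype.mem_piFinset] at haB
      rw [hXX, Fintype.mem_piFinset]
      intro i
      exact haB.1 _
    have hcard : Bf.card = ∑ a' ∈ XX, (Bf.filter (fun a => Fin.init a = a')).card :=
      Finset.card_eq_sum_card_fiberwise (f := fun a : Fin (n + 1) → ℂ => (Fin.init a : Fin n → ℂ))
        (s := Bf) (t := XX) hmaps
    have hfib0 : ∀ a' : Fin n → ℂ, (Bf.filter (fun a => Fin.init a = a')).card ≤ X.card := by
      intro a'
      refine Finset.card_le_card_of_injOn (fun a => a (Fin.last n)) ?_ ?_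
      · intro a haf
        simp only [hBf, Finset.coe_filter, Finset.mem_filter, Set.mem_ofPred_eq,
          Fintype.mem_piFinset] at haf ⊢
        exact haf.1.1 _
      · intro a haf b hbf hab
        simp only [Finset.coe_filter, Set.mem_ofPred_eq] at haf hbf
        rw [← Fin.snoc_init_self a, ← Fin.snoc_init_self b, haf.2, hbf.2]
        simp only at hab
        rw [hab]
    have hfib : ∀ a' : Fin n → ℂ, ¬ badRN ξ d A C1 H a' →
        (Bf.filter (fun a => Fin.init a = a')).card ≤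
        (X.filter (fun z => badR (Fin.append ξ a') d C1 (c * C2) H z)).card := by
      intro a' hnb
      refine Finset.card_le_card_of_injOn (fun a => a (Fin.last n)) ?_ ?_
      · intro a haf
        simp only [hBf, Finset.coe_filter, Finset.mem_filter, Set.mem_ofPred_eq,
          Fintype.mem_piFinset] at haf ⊢
        refine ⟨haf.1.1 _, ?_⟩
        have h3 := badRN_succ ξ d A (c * C2) C1 H a haf.1.2 (by rw [haf.2]; exact hnb)
        rw [haf.2] at h3
        exact h3
      · intro a haf b hbf hab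
        simp only [Finset.coe_filter, Set.mem_ofPred_eq] at haf hbf
        rw [← Fin.snoc_init_self a, ← Fin.snoc_init_self b, haf.2, hbf.2]
        simp only at hab
        rw [hab]
    have hXn : (XX.card : ℝ) = (X.card : ℝ) ^ n := by
      rw [hXX, Fintype.card_piFinset_const]
      push_cast
      rfl
    have hbound : ∀ a' ∈ XX, ((Bf.filter (fun a => Fin.init a = a')).card : ℝ) ≤
        (if a' ∈ Gf then (X.card : ℝ) else 0) + ε * X.card := by
      intro a' haX
      by_cases hg : a' ∈ Gf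
      · rw [if_pos hg]
        have : ((Bf.filter (fun a => Fin.init a = a')).card : ℝ) ≤ X.card := by
          exact_mod_cast hfib0 a'
        have h3 : 0 ≤ ε * (X.card : ℝ) := by positivity
        linarith
      · rw [if_neg hg, zero_add]
        have hnb : ¬ badRN ξ d A C1 H a' := by
          intro hb
          exact hg (Finset.mem_filter.2 ⟨haX, hb⟩)
        have h3 := hG3 a' (by
          rw [hXX, Fintype.mem_piFinset] at haX
          exact haX)
        have h4 : ((Bf.filter (fun a => Fin.init a = a')).card : ℝ) ≤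
            (X.filter (fun z => badR (Fin.append ξ a') d C1 (c * C2) H z)).card := by
          exact_mod_cast hfib a' hnb
        linarith
    rw [hcard]
    push_cast
    refine (Finset.sum_le_sum hbound).trans ?_
    rw [Finset.sum_add_distrib, Finset.sum_const, nsmul_eq_mul, hXn, ← Finset.sum_filter]
    have h5 : ∑ _a ∈ XX.filter (fun a' => a' ∈ Gf), (X.card : ℝ) ≤ Gf.card * X.card := by
      rw [Finset.sum_const, nsmul_eq_mul]
      refine mul_le_mul_of_nonneg_right ?_ (Nat.cast_nonneg _)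
      exact_mod_cast Finset.card_le_card (fun a haf => (Finset.mem_filter.1 haf).2)
    have h6 : (Gf.card : ℝ) * X.card ≤ n * ε * (X.card : ℝ) ^ n * X.card :=
      mul_le_mul_of_nonneg_right hG1 (Nat.cast_nonneg _)
    rw [pow_succ]
    nlinarith [h5, h6]


end Pool.Agent.H72.AAP
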