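import Pool.Agent.H72.AAP.Fin
import Pool.Agent.H54.AAP.INTG

/-!
Completely additive functions whose values at the primes are independent logarithms.
-/

set_option autoImplicit false

open Finset Filter

namespace Pool.Agent.H72.AAP

open Pool.Agent
open Pool.Agent.H72.BF (badR badRN)

/-- completely additive functions whose values at the primes are `ℚ`-linearly independent logarithms
of algebraic numbers -/
structure LogAdd (L : ℕ → ℂ) : Prop where
  add : ∀ a b : ℕ, a ≠ 0 → b ≠ 0 → L (a * b) = L a + L b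
  ind : LinearIndependent ℚ (fun p : Nat.Primes => L p)
  alg : ∀ p : ℕ, p.Prime → IsAlgebraic ℚ (Complex.exp (L p))

namespace LogAdd

variable {L : ℕ → ℂ} (hL : LogAdd L)

include hL

theorem one : L 1 = 0 := by
  have h := hL.add 1 1 one_ne_zero one_ne_zero
  rw [mul_one] at h
  have h2 : L 1 + 0 = L 1 + L 1 := by rw [add_zero]; exact h
  exact (add_left_cancel h2).symm

theorem prod {ι : Type} (s : Finset ι) (f : ι → ℕ) (hf : ∀ i ∈ s, f i ≠ 0) :
    L (∏ i ∈ s, f i) = ∑ i ∈ s, L (f i) := by
  classical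
  induction s using Finset.induction_on with
  | empty => simpa using hL.one
  | insert a s ha ih =>
    rw [Finset.prod_insert ha, Finset.sum_insert ha, hL.add _ _ (hf a (by simp))
      (Finset.prod_ne_zero_iff.2 fun i hi => hf i (by simp [hi])),
      ih fun i hi => hf i (by simp [hi])]

theorem pow (a k : ℕ) (ha : a ≠ 0) : L (a ^ k) = (k : ℂ) * L a := by
  induction k with
  | zero => simpa using hL.one
  | succ k ih =>
    rw [pow_succ, hL.add _ _ (pow_ne_zero _ ha) ha, ih]
    push_cast
    ring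

theorem eq_sum (a : ℕ) (ha : a ≠ 0) :
    L a = ∑ p ∈ a.primeFactors, (a.factorization p : ℂ) * L p := by
  conv_lhs => rw [← Nat.prod_factorization_pow_eq_self ha]
  rw [Finsupp.prod, Nat.support_factorization, hL.prod]
  · refine Finset.sum_congr rfl fun p hp => ?_
    exact hL.pow p _ (Nat.prime_of_mem_primeFactors hp).ne_zero
  · intro p hp
    exact pow_ne_zero _ (Nat.prime_of_mem_primeFactors hp).ne_zero

theorem inj (a b : ℕ) (ha : a ≠ 0) (hb : b ≠ 0) (h : L a = L b) : a = b := by
  classical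
  have key : ∀ c : ℕ, c ≠ 0 → L c = ∑ p ∈ (a.primeFactors ∪ b.primeFactors ∪ c.primeFactors),
      (c.factorization p : ℂ) * L p := by
    intro c hc
    rw [hL.eq_sum c hc]
    refine Finset.sum_subset Finset.subset_union_right fun p _ hp => ?_
    have : c.factorization p = 0 := by
      rw [← Finsupp.notMem_support_iff, Nat.support_factorization]
      exact hp
    rw [this]
    simp
  set s := a.primeFactors ∪ b.primeFactors with hs
  have hprime : ∀ p ∈ s, p.Prime := by
    intro p hp
    rw [hs, Finset.mem_union] at hp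
    rcases hp with hp | hp
    · exact Nat.prime_of_mem_primeFactors hp
    · exact Nat.prime_of_mem_primeFactors hp
  have ka := key a ha
  have kb := key b hb
  rw [show s ∪ a.primeFactors = s from Finset.union_eq_left.2 Finset.subset_union_left] at ka
  rw [show s ∪ b.primeFactors = s from Finset.union_eq_left.2 Finset.subset_union_right] at kb
  have hli : LinearIndependent ℚ (fun p : s => L p) := by
    have := hL.ind.comp (fun p : s => (⟨p.1, hprime p.1 p.2⟩ : Nat.Primes)) (by
      intro p q hpq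
      have h1 : (p : ℕ) = (q : ℕ) := congrArg (fun r : Nat.Primes => (r : ℕ)) hpq
      exact Subtype.ext h1)
    exact this
  have h0 : ∑ p : s, ((a.factorization p : ℚ) - b.factorization p) • L p = 0 := by
    rw [Finset.sum_coe_sort s (fun p => ((a.factorization p : ℚ) - b.factorization p) • L p)]
    have h1 : ∀ p, ((a.factorization p : ℚ) - b.factorization p) • L p =
        (a.factorization p : ℂ) * L p - (b.factorization p : ℂ) * L p := by
      intro p
      rw [Rat.smul_def]
      push_cast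
      ring
    simp only [h1]
    rw [Finset.sum_sub_distrib, ← ka, ← kb, h, sub_self]
  have h2 := Fintype.linearIndependent_iff.1 hli _ h0
  apply Nat.eq_of_factorization_eq ha hb
  intro p
  by_cases hp : p ∈ s
  · have h3 := h2 ⟨p, hp⟩
    have h4 : (a.factorization p : ℚ) = b.factorization p := sub_eq_zero.1 h3
    exact_mod_cast h4
  · rw [hs, Finset.mem_union, not_or] at hp
    have h5 : a.factorization p = 0 := by
      rw [← Finsupp.notMem_support_iff, Nat.support_factorization]
      exact hp.1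
    have h6 : b.factorization p = 0 := by
      rw [← Finsupp.notMem_support_iff, Nat.support_factorization]
      exact hp.2
    rw [h5, h6]

theorem algebraic (a : ℕ) (ha : a ≠ 0) : IsAlgebraic ℚ (Complex.exp (L a)) := by
  rw [hL.eq_sum a ha, Complex.exp_sum]
  refine Finset.prod_induction _ (IsAlgebraic ℚ) (fun a b ha hb => ha.mul hb) isAlgebraic_one
    fun p hp => ?_
  rw [Complex.exp_nat_mul]
  exact (hL.alg p (Nat.prime_of_mem_primeFactors hp)).pow _

/-- a multiplicative cube gives a cube with independent sides -/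
theorem cube (k : ℕ) (p : Fin k → Fin 2 → ℕ) (m : ℕ) (hm : m ≠ 0)
    (hp : ∀ i e, (p i e).Prime)
    (hinj : Function.Injective (fun ie : Fin k × Fin 2 => p ie.1 ie.2)) (B : Set ℂ)
    (hB : ∀ ε : Fin k → Fin 2, L (m * ∏ i, p i (ε i)) ∈ B) :
    ∃ (v : ℂ) (u : Fin k → ℂ), LinearIndependent ℚ u ∧
      ∀ I : Finset (Fin k), v + ∑ i ∈ I, u i ∈ B := by
  classical
  have hli : LinearIndependent ℚ (fun ie : Fin k × Fin 2 => L (p ie.1 ie.2)) := by
    have := hL.ind.comp (fun ie : Fin k × Fin 2 => (⟨p ie.1 ie.2, hp ie.1 ie.2⟩ : Nat.Primes)) (by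
      intro x y hxy
      exact hinj (congrArg (fun r : Nat.Primes => (r : ℕ)) hxy))
    exact this
  refine ⟨L m + ∑ i, L (p i 0), fun i => L (p i 1) - L (p i 0), ?_, ?_⟩
  · rw [Fintype.linearIndependent_iff]
    intro g hg i
    have h1 : ∑ ie : Fin k × Fin 2, (if ie.2 = 1 then g ie.1 else - g ie.1) •
        L (p ie.1 ie.2) = 0 := by
      rw [Fintype.sum_prod_type, ← hg]
      refine Finset.sum_congr rfl fun i _ => ?_
      rw [Fin.sum_univ_two, smul_sub]
      simp
      ring
    have h2 := Fintype.linearIndependent_iff.1 hli _ h1 (i, 1)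
    simpa using h2
  · intro I
    have h1 := hB (fun i => if i ∈ I then 1 else 0)
    rw [hL.add _ _ hm (Finset.prod_ne_zero_iff.2 fun i _ => (hp i _).ne_zero),
      hL.prod _ _ (fun i _ => (hp i _).ne_zero)] at h1
    have h3 : ∀ i, L (p i (if i ∈ I then 1 else 0)) = L (p i 0) +
        if i ∈ I then (L (p i 1) - L (p i 0)) else 0 := by
      intro i
      by_cases hi : i ∈ I
      · rw [if_pos hi, if_pos hi]; ring
      · rw [if_neg hi, if_neg hi, add_zero]
    rw [Finset.sum_congr rfl fun i _ => h3 i, Finset.sum_add_distrib, Finset.sum_ite_mem,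
      Finset.univ_inter, ← add_assoc] at h1
    exact h1

end LogAdd

/-- cube free sets among the values of completely additive functions -/
theorem intgL (h1 : T_SM1) (h2 : T_SM2) : ∀ κ : ℕ, ∃ C c : ℝ, 0 < C ∧ 0 < c ∧ ∀ L : ℕ → ℂ,
    LogAdd L → ∀ B : Set ℂ, CubeFree κ B → ∀ x : ℕ, 3 ≤ x →
    (Set.ncard {a : ℕ | 1 ≤ a ∧ a ≤ x ∧ L a ∈ B} : ℝ) * Real.log x ≤
      C * x * (Real.log (Real.log x)) ^ c := by
  classical
  intro κ
  obtain ⟨A, C2, hA, hC2, h2'⟩ := h2 (κ + 1)
  obtain ⟨C1, c, hC1, hc, h1'⟩ := h1 (κ + 1) A hA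
  have hl3 : 1 < Real.log 3 := by
    rw [Real.lt_log_iff_exp_lt (by norm_num)]
    exact lt_trans Real.exp_one_lt_d9 (by norm_num)
  have hll3 : 0 < Real.log (Real.log 3) := Real.log_pos hl3
  have hpow : 0 < Real.log (Real.log 3) ^ c := Real.rpow_pos_of_pos hll3 c
  refine ⟨C1 + C2 / Real.log (Real.log 3) ^ c, c, by positivity, hc, fun L hL B hB x hx => ?_⟩
  have hx0 : (0:ℝ) < x := by exact_mod_cast (by omega : 0 < x)
  have hx3 : (3:ℝ) ≤ x := by exact_mod_cast hx
  have hlx : Real.log 3 ≤ Real.log x := Real.log_le_log (by norm_num) hx3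
  have hllx : Real.log (Real.log 3) ≤ Real.log (Real.log x) := Real.log_le_log (by linarith) hlx
  set S : Finset ℕ := (Finset.Icc 1 x).filter (fun a => L a ∈ B) with hS
  have hset : {a : ℕ | 1 ≤ a ∧ a ≤ x ∧ L a ∈ B} = (S : Set ℕ) := by
    ext a
    simp [hS, and_assoc]
  rw [hset, Set.ncard_coe_finset]
  set P : ℕ → Prop := fun a =>
    (a.primeFactors.filter (fun p : ℕ => (Real.log x) ^ A < (p : ℝ))).card < κ + 1 with hP
  have hsplit : (S.filter P).card + (S.filter (fun a => ¬ P a)).card = S.card :=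
    Finset.card_filter_add_card_filter_not _
  have hb1 : ((S.filter P).card : ℝ) * Real.log x ≤ C1 * x * Real.log (Real.log x) ^ c := by
    refine le_trans ?_ (h1' x hx)
    refine mul_le_mul_of_nonneg_right ?_ (by linarith)
    exact_mod_cast Finset.card_le_card (Finset.filter_subset_filter _ (Finset.filter_subset _ _))
  have hb2 : ((S.filter (fun a => ¬ P a)).card : ℝ) * Real.log x ≤ C2 * x := by
    refine h2' x hx _ ((Finset.filter_subset _ _).trans (Finset.filter_subset _ _)) ?_ ?_
    · intro a ha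
      exact not_lt.mp (Finset.mem_filter.mp ha).2
    · intro p m hp hinj
      by_contra hcon
      push Not at hcon
      have hmem : ∀ ε : Fin (κ + 1) → Fin 2, m * ∏ i, p i (ε i) ∈ S := fun ε =>
        (Finset.mem_filter.mp (hcon ε)).1
      have hm : m ≠ 0 := by
        rintro rfl
        have h3 := (Finset.mem_Icc.mp (Finset.mem_filter.mp (hmem fun _ => 0)).1).1
        simp at h3
      obtain ⟨v, u, hu, hv⟩ := hL.cube (κ + 1) p m hm hp hinj B
        fun ε => (Finset.mem_filter.mp (hmem ε)).2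
      have := hB v (κ + 1) u hu hv
      omega
  have hb3 : C2 * x ≤ C2 / Real.log (Real.log 3) ^ c * x * Real.log (Real.log x) ^ c := by
    have h3 : Real.log (Real.log 3) ^ c ≤ Real.log (Real.log x) ^ c :=
      Real.rpow_le_rpow hll3.le hllx hc.le
    calc C2 * x = C2 / Real.log (Real.log 3) ^ c * x * Real.log (Real.log 3) ^ c := by
          field_simp
      _ ≤ _ := mul_le_mul_of_nonneg_left h3 (by positivity)
  have h4 : (S.card : ℝ) = ((S.filter P).card : ℝ) + ((S.filter (fun a => ¬ P a)).card : ℝ) := by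
    exact_mod_cast hsplit.symm
  rw [h4]
  linarith

/-- values of completely additive functions at one height -/
theorem aapAdd (hAAPN : T_AAPN) (h1 : T_SM1) (h2 : T_SM2) (r n d : ℕ) : ∃ C₁ c : ℝ, 0 < C₁ ∧ 0 < c ∧
    ∀ L : ℕ → ℂ, LogAdd L → ∀ x : ℕ, 3 ≤ x → ∀ A : ℝ, ∃ C : ℝ, 0 < C ∧ ∀ H : ℝ, 2 ≤ H →
    ∀ ξ : Fin r → ℂ, (∀ i, ‖ξ i‖ ≤ H) →
    (Set.ncard {a : Fin n → ℕ | (∀ i, a i ∈ Finset.Icc 1 x) ∧
      badRN ξ d A C H (fun i => L (a i))} : ℝ) ≤
      C₁ * Real.log (Real.log x) ^ c / Real.log x * (x : ℝ) ^ n := by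
  obtain ⟨κ, hκ⟩ := bad_index hAAPN r n d
  obtain ⟨C1, c, hC1, hc, h1⟩ := intgL h1 h2 κ
  refine ⟨n * C1 + 1, c, by positivity, hc, fun L hL x hx A => ?_⟩
  have hx3 : (3 : ℝ) ≤ (x : ℝ) := by exact_mod_cast hx
  have hx0 : (0 : ℝ) < (x : ℝ) := by linarith
  have hlog1 : 1 < Real.log x := by
    rw [Real.lt_log_iff_exp_lt hx0]
    have := Real.exp_one_lt_d9
    linarith
  have hlog : 0 < Real.log x := by linarith
  have hll : 0 < Real.log (Real.log x) := Real.log_pos hlog1
  have hllc : 0 < Real.log (Real.log x) ^ c := Real.rpow_pos_of_pos hll _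
  have hcard : ((Finset.Icc 1 x).card : ℝ) = x := by simp
  obtain ⟨C, hC, h2⟩ := hκ ℕ (Finset.Icc 1 x) L
    (C1 * Real.log (Real.log x) ^ c / Real.log x) (fun a ha b hb h => by
      rw [Finset.mem_Icc] at ha hb
      exact hL.inj a b (by omega) (by omega) h) (fun m hm => by
      rw [Finset.mem_Icc] at hm
      exact hL.algebraic m (by omega)) (by positivity) (fun B hB => by
      have h3 := h1 L hL B hB x hx
      rw [hcard]
      have h6 : {a : ℕ | a ∈ Finset.Icc 1 x ∧ L a ∈ B} = {a : ℕ | 1 ≤ a ∧ a ≤ x ∧ L a ∈ B} := by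
        ext a
        simp only [Set.mem_setOf_eq, Finset.mem_Icc, and_assoc]
      rw [h6, div_mul_eq_mul_div, le_div_iff₀ hlog]
      calc _ ≤ C1 * x * Real.log (Real.log x) ^ c := h3
        _ = C1 * Real.log (Real.log x) ^ c * x := by ring) A
  refine ⟨C, hC, fun H hH ξ hξ => (h2 H hH ξ hξ).trans ?_⟩
  rw [hcard]
  refine mul_le_mul_of_nonneg_right ?_ (by positivity)
  rw [← mul_div_assoc, ← mul_assoc]
  refine div_le_div_of_nonneg_right ?_ hlog.le
  exact mul_le_mul_of_nonneg_right (by linarith) hllc.le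

end Pool.Agent.H72.AAP
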