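import Pool.Agent.H72.BF.Assemble2
import Mathlib.Algebra.MvPolynomial.SchwartzZippel

/-!
Counting exceptional tuples of combinations of few logarithms with explicit constants.
-/

set_option autoImplicit false

open Finset Filter

namespace Pool.Agent.H72.AAP

open Pool.Agent Pool.Agent.H72.BF

/-- the degree of the monomials of a polynomial which is homogeneous in every block of variables -/
theorem deg_blocks {n M : ℕ} (Ψ : MvPolynomial (Fin n × Fin M) ℤ) (e : ℕ)
    (hdeg : ∀ i : Fin n, MvPolynomial.IsWeightedHomogeneous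
      (fun x : Fin n × Fin M => if x.1 = i then 1 else 0) Ψ e) (s : Fin n × Fin M →₀ ℕ)
    (hs : Ψ.coeff s ≠ 0) : ∑ x, s x = n * e := by
  have h1 : ∀ i : Fin n, ∑ j : Fin M, s (i, j) = e := by
    intro i
    have h2 := hdeg i hs
    rw [Finsupp.weight_apply, Finsupp.sum_fintype _ _ (fun _ => by simp)] at h2
    rw [Fintype.sum_prod_type] at h2
    rw [Finset.sum_eq_single i] at h2
    · simpa using h2
    · intro b _ hb
      refine Finset.sum_eq_zero fun j _ => ?_
      simp [hb]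
    · intro h
      exact absurd (Finset.mem_univ i) h
  rw [Fintype.sum_prod_type]
  simp only [h1]
  simp

/-- number of zeros in a grid -/
theorem sz_grid {n M : ℕ} (Ψ : MvPolynomial (Fin n × Fin M) ℤ) (hΨ : Ψ ≠ 0) (e : ℕ)
    (hdeg : ∀ i : Fin n, MvPolynomial.IsWeightedHomogeneous
      (fun x : Fin n × Fin M => if x.1 = i then 1 else 0) Ψ e)
    (V : Fin M → Finset ℤ) (N : ℕ) (hN : 1 ≤ N) (hV : ∀ j, N ≤ (V j).card) :
    (Set.ncard {w : Fin n → Fin M → ℤ | (∀ i, w i ∈ Fintype.piFinset V) ∧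
      MvPolynomial.eval (fun x => w x.1 x.2) Ψ = 0} : ℝ) * N ≤
      n * e * ((Fintype.piFinset V).card : ℝ) ^ n := by
  classical
  set φ : Fin n × Fin M ≃ Fin (n * M) := finProdFinEquiv with hφ
  set p : MvPolynomial (Fin (n * M)) ℤ := MvPolynomial.rename φ Ψ with hp
  have hp0 : p ≠ 0 := by
    intro h
    apply hΨ
    exact (MvPolynomial.rename_injective φ φ.injective) (by rw [← hp, h, map_zero])
  set S : Fin (n * M) → Finset ℤ := fun i => V (φ.symm i).2 with hS
  have hSN : ∀ i, N ≤ (S i).card := fun i => hV _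
  have hN0 : (0 : ℚ≥0) < (N : ℚ≥0) := by exact_mod_cast hN
  have hsz := MvPolynomial.schwartz_zippel_sup_sum hp0 S
  have hsup : (p.support.sup fun s ↦ ∑ i, (s i / (S i).card : ℚ≥0)) ≤ (n * e : ℚ≥0) / N := by
    refine Finset.sup_le fun s hs => ?_
    have h1 : ∑ i, (s i / (S i).card : ℚ≥0) ≤ ∑ i, (s i / N : ℚ≥0) := by
      refine Finset.sum_le_sum fun i _ => ?_
      gcongr
      exact hSN i
    refine h1.trans ?_
    rw [← Finset.sum_div]
    gcongr
    have h2 : Ψ.coeff (s.mapDomain φ.symm) ≠ 0 := by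
      have h3 : s = (s.mapDomain φ.symm).mapDomain φ := by
        rw [← Finsupp.mapDomain_comp]
        simp
      rw [MvPolynomial.mem_support_iff, hp, h3,
        MvPolynomial.coeff_rename_mapDomain _ φ.injective] at hs
      exact hs
    have h4 := deg_blocks Ψ e hdeg _ h2
    have h5 : ∑ x, (s.mapDomain φ.symm) x = ∑ i, s i := by
      rw [← Equiv.sum_comp φ.symm]
      refine Finset.sum_congr rfl fun i _ => ?_
      exact Finsupp.mapDomain_apply φ.symm.injective s i
    rw [h5] at h4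
    exact_mod_cast h4.le
  have hprod : (∏ i, ((S i).card : ℚ≥0)) = ((Fintype.piFinset V).card : ℚ≥0) ^ n := by
    rw [← Equiv.prod_comp φ, Fintype.prod_prod_type]
    simp only [hS, Equiv.symm_apply_apply, Finset.prod_const, Finset.card_univ, Fintype.card_fin,
      Fintype.card_piFinset]
    push_cast
    rfl
  have hcount : Set.ncard {w : Fin n → Fin M → ℤ | (∀ i, w i ∈ Fintype.piFinset V) ∧
      MvPolynomial.eval (fun x => w x.1 x.2) Ψ = 0} ≤
      ((Fintype.piFinset S).filter (fun x => MvPolynomial.eval x p = 0)).card := by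
    rw [← Set.ncard_coe_finset]
    refine Set.ncard_le_ncard_of_injOn (fun w i => w (φ.symm i).1 (φ.symm i).2) ?_ ?_
      (Finset.finite_toSet _)
    · intro w hw
      rw [Finset.mem_coe, Finset.mem_filter, Fintype.mem_piFinset]
      refine ⟨fun i => ?_, ?_⟩
      · have := hw.1 (φ.symm i).1
        rw [Fintype.mem_piFinset] at this
        exact this _
      · rw [hp, MvPolynomial.eval_rename]
        have h6 : ((fun i => w (φ.symm i).1 (φ.symm i).2) ∘ φ) = fun x => w x.1 x.2 := by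
          funext x
          simp
        rw [h6]
        exact hw.2
    · intro w _ w' _ h
      funext i j
      have := congrFun h (φ (i, j))
      simpa using this
  have hVpos : ∀ j, 0 < ((V j).card : ℚ≥0) := fun j => by
    have := hV j
    have h7 : 0 < (V j).card := by omega
    exact_mod_cast h7
  have hPpos : (0 : ℚ≥0) < ((Fintype.piFinset V).card : ℚ≥0) ^ n := by
    rw [Fintype.card_piFinset]
    push_cast
    exact pow_pos (Finset.prod_pos fun j _ => hVpos j) n
  have h8 := hsz.trans hsup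
  rw [hprod, div_le_div_iff₀ hPpos hN0] at h8
  have h9 : ((((Fintype.piFinset S).filter (fun x => MvPolynomial.eval x p = 0)).card : ℕ) : ℝ) *
      N ≤ n * e * ((Fintype.piFinset V).card : ℝ) ^ n := by
    exact_mod_cast h8
  refine le_trans ?_ h9
  refine mul_le_mul_of_nonneg_right ?_ (Nat.cast_nonneg _)
  exact_mod_cast hcount

/-- exceptional tuples for few logarithms: explicit constants -/
theorem gtCount (n M d : ℕ) (lam0 : ℂ) (mu : Fin M → ℂ)
    (hlin : LinearIndependent ℚ (Fin.cons lam0 mu : Fin (M + 1) → ℂ))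
    (h0 : IsAlgebraic ℚ (Complex.exp lam0)) (halg : ∀ j, IsAlgebraic ℚ (Complex.exp (mu j)))
    (hM : (n + d).choose d ≤ M + 1) : ∃ C : ℝ, 0 < C ∧ ∀ H : ℝ, 2 ≤ H →
    ∀ (V : Fin M → Finset ℤ) (N : ℕ), 1 ≤ N → (∀ j, N ≤ (V j).card) →
    (∀ j, ∀ v ∈ V j, |(v : ℝ)| ≤ H) →
    (Set.ncard {w : Fin n → Fin M → ℤ | (∀ i, w i ∈ Fintype.piFinset V) ∧
      ∃ P : MvPolynomial (Fin (n + 1)) ℤ, P ≠ 0 ∧ P.totalDegree ≤ d ∧
        (∀ m : Fin (n + 1) →₀ ℕ, |((P.coeff m : ℤ) : ℝ)| ≤ H) ∧
        H ^ C * ‖MvPolynomial.aeval (tup lam0 mu w) P‖ < 1} : ℝ) * N ≤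
      n * ((n + 1 + d).choose (n + 2)) * ((Fintype.piFinset V).card : ℝ) ^ n := by
  classical
  obtain ⟨C, hC, h⟩ := genericTuples n M d lam0 mu hlin h0 halg hM
  refine ⟨C, hC, fun H hH V N hN hV hVH => ?_⟩
  obtain ⟨Ψ, hΨ, hdeg, -, hgood⟩ := h H hH
  refine le_trans ?_ (sz_grid Ψ hΨ _ hdeg V N hN hV)
  refine mul_le_mul_of_nonneg_right ?_ (Nat.cast_nonneg _)
  have hfin : Set.Finite {w : Fin n → Fin M → ℤ | (∀ i, w i ∈ Fintype.piFinset V) ∧
      MvPolynomial.eval (fun x => w x.1 x.2) Ψ = 0} := by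
    refine Set.Finite.subset (Set.Finite.pi' (fun _ : Fin n => (Fintype.piFinset V).finite_toSet)) ?_
    intro w hw i
    exact hw.1 i
  refine Nat.cast_le.2 (Set.ncard_le_ncard ?_ hfin)
  intro w hw
  refine ⟨hw.1, ?_⟩
  by_contra hne
  obtain ⟨P, hP, hPd, hPc, hPv⟩ := hw.2
  have := hgood w (fun i j => by
    have h1 := hw.1 i
    rw [Fintype.mem_piFinset] at h1
    exact hVH j _ (h1 j)) hne P hP hPd hPc
  linarith

end Pool.Agent.H72.AAP
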