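import Pool.Agent.H72.AAP.Targets

set_option autoImplicit false

open Finset Filter

namespace Pool.Agent.H72.AAP

theorem pf_LATX (hBOX : T_BOX) : T_LAT := by
  classical
  intro κ
  obtain ⟨C, hC, hbox⟩ := hBOX (κ + 1)
  refine ⟨C, hC, fun B hB M hM μ hμ V N hN hV => ?_⟩
  obtain ⟨m, rfl⟩ : ∃ m, M = κ + 1 + m := ⟨M - (κ + 1), by omega⟩
  obtain ⟨A, hA⟩ : ∃ A : Fin (κ + 1) → Finset ℤ, A = fun i => V (Fin.castAdd m i) := ⟨_, rfl⟩
  obtain ⟨A', hA'⟩ : ∃ A' : Fin m → Finset ℤ, A' = fun i => V (Fin.natAdd (κ + 1) i) := ⟨_, rfl⟩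
  let S : (Fin m → ℤ) → Finset (Fin (κ + 1) → ℤ) := fun b =>
    (Fintype.piFinset A).filter (fun a => ∑ j, ((Fin.append a b j : ℤ) : ℂ) * μ j ∈ B)
  have hS : ∀ b, ((S b).card : ℝ) * (N : ℝ) ^ ((1 : ℝ) / 2 ^ (κ + 1)) ≤
      C * ∏ i, ((A i).card : ℝ) := by
    intro b
    refine hbox ℤ A N hN (fun i => by rw [hA]; exact hV _) (S b) ?_ ?_
    · intro a ha i
      have := (Finset.mem_filter.1 ha).1
      rw [Fintype.mem_piFinset] at this
      exact this i
    · intro a a' hne
      by_contra hcon
      push Not at hcon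
      have hcube := hB (∑ j, ((Fin.append a b j : ℤ) : ℂ) * μ j) (κ + 1)
        (fun i => ((a' i - a i : ℤ) : ℂ) * μ (Fin.castAdd m i)) (by
          have h1 : LinearIndependent ℚ (fun i : Fin (κ + 1) => μ (Fin.castAdd m i)) :=
            hμ.comp _ (Fin.castAdd_injective (κ + 1) m)
          have h2 : ∀ i, ((a' i - a i : ℤ) : ℚ) ≠ 0 := by
            intro i
            have : a' i - a i ≠ 0 := sub_ne_zero.2 (fun h => hne i h.symm)
            exact_mod_cast this
          have h3 := h1.units_smul (fun i => Units.mk0 _ (h2 i))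
          have h4 : (fun i => ((a' i - a i : ℤ) : ℂ) * μ (Fin.castAdd m i)) =
              ((fun i => Units.mk0 _ (h2 i)) • fun i : Fin (κ + 1) => μ (Fin.castAdd m i)) := by
            funext i
            rw [Pi.smul_apply', Units.smul_def, Units.val_mk0, Rat.smul_def]
            push_cast
            ring
          rw [h4]
          exact h3) (by
          intro I
          have h5 := (Finset.mem_filter.1 (hcon I)).2
          have h6 : ∑ j, ((Fin.append a b j : ℤ) : ℂ) * μ j +
              ∑ i ∈ I, ((a' i - a i : ℤ) : ℂ) * μ (Fin.castAdd m i) =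
              ∑ j, ((Fin.append (fun i => if i ∈ I then a' i else a i) b j : ℤ) : ℂ) * μ j := by
            rw [Fin.sum_univ_add (a := κ + 1) (b := m), Fin.sum_univ_add (a := κ + 1) (b := m)]
            simp only [Fin.append_left, Fin.append_right]
            have h7 : ∑ i : Fin (κ + 1), ((if i ∈ I then a' i else a i : ℤ) : ℂ) *
                μ (Fin.castAdd m i) = ∑ i : Fin (κ + 1), (a i : ℂ) * μ (Fin.castAdd m i) +
                ∑ i ∈ I, ((a' i - a i : ℤ) : ℂ) * μ (Fin.castAdd m i) := by
              rw [← Finset.sum_filter_add_sum_filter_not Finset.univ (fun i => i ∈ I)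
                (fun i => ((if i ∈ I then a' i else a i : ℤ) : ℂ) * μ (Fin.castAdd m i)),
                ← Finset.sum_filter_add_sum_filter_not Finset.univ (fun i => i ∈ I)
                (fun i => (a i : ℂ) * μ (Fin.castAdd m i))]
              have h8 : (Finset.univ.filter (fun i : Fin (κ + 1) => i ∈ I)) = I := by
                ext i
                simp
              rw [h8]
              have h9 : ∑ x ∈ I, ((if x ∈ I then a' x else a x : ℤ) : ℂ) * μ (Fin.castAdd m x) =
                  ∑ x ∈ I, (a' x : ℂ) * μ (Fin.castAdd m x) :=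
                Finset.sum_congr rfl fun x hx => by rw [if_pos hx]
              have h10 : ∑ x ∈ Finset.univ.filter (fun i => i ∉ I),
                  ((if x ∈ I then a' x else a x : ℤ) : ℂ) * μ (Fin.castAdd m x) =
                  ∑ x ∈ Finset.univ.filter (fun i => i ∉ I), (a x : ℂ) * μ (Fin.castAdd m x) :=
                Finset.sum_congr rfl fun x hx => by
                  rw [if_neg (Finset.mem_filter.1 hx).2]
              rw [h9, h10]
              have h11 : ∑ i ∈ I, ((a' i - a i : ℤ) : ℂ) * μ (Fin.castAdd m i) =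
                  ∑ x ∈ I, (a' x : ℂ) * μ (Fin.castAdd m x) -
                  ∑ x ∈ I, (a x : ℂ) * μ (Fin.castAdd m x) := by
                rw [← Finset.sum_sub_distrib]
                refine Finset.sum_congr rfl fun x _ => ?_
                push_cast
                ring
              rw [h11]
              ring
            rw [h7]
            ring
          rw [h6]
          exact h5)
      omega
  set T : Finset (Fin (κ + 1 + m) → ℤ) := (Fintype.piFinset V).filter
    (fun w => ∑ j, (w j : ℂ) * μ j ∈ B) with hT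
  have hTset : {w : Fin (κ + 1 + m) → ℤ | (∀ j, w j ∈ V j) ∧ ∑ j, (w j : ℂ) * μ j ∈ B} =
      (T : Set _) := by
    ext w
    simp [hT, Fintype.mem_piFinset]
  rw [hTset, Set.ncard_coe_finset]
  have hmaps : ∀ w ∈ T, (fun i : Fin m => w (Fin.natAdd (κ + 1) i)) ∈ Fintype.piFinset A' := by
    intro w hw
    rw [hT, Finset.mem_filter, Fintype.mem_piFinset] at hw
    rw [Fintype.mem_piFinset]
    intro i
    rw [hA']
    exact hw.1 _
  have hcard := Finset.card_eq_sum_card_fiberwise
    (f := fun w : Fin (κ + 1 + m) → ℤ => (fun i : Fin m => w (Fin.natAdd (κ + 1) i)))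
    (s := T) (t := Fintype.piFinset A') hmaps
  have hfib : ∀ b, (T.filter (fun w => (fun i : Fin m => w (Fin.natAdd (κ + 1) i)) = b)).card ≤
      (S b).card := by
    intro b
    have hw' : ∀ w : Fin (κ + 1 + m) → ℤ, (fun i : Fin m => w (Fin.natAdd (κ + 1) i)) = b →
        Fin.append (fun i => w (Fin.castAdd m i)) b = w := by
      intro w hw
      funext i
      refine Fin.addCases (fun i => ?_) (fun i => ?_) i
      · rw [Fin.append_left]
      · rw [Fin.append_right, ← hw]
    refine Finset.card_le_card_of_injOn (fun w i => w (Fin.castAdd m i)) ?_ ?_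
    · intro w hw
      rw [Finset.mem_coe, Finset.mem_filter] at hw
      obtain ⟨h1, h2⟩ := hw
      rw [hT, Finset.mem_filter, Fintype.mem_piFinset] at h1
      rw [Finset.mem_coe, Finset.mem_filter, Fintype.mem_piFinset]
      refine ⟨fun i => by rw [hA]; exact h1.1 _, ?_⟩
      rw [hw' w h2]
      exact h1.2
    · intro w hw w' hw2 h
      rw [Finset.mem_coe, Finset.mem_filter] at hw hw2
      rw [← hw' w hw.2, ← hw' w' hw2.2]
      simp only at h
      rw [h]
  have hprod : ∏ j, ((V j).card : ℝ) = (∏ i, ((A i).card : ℝ)) * ∏ i, ((A' i).card : ℝ) := by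
    rw [Fin.prod_univ_add (a := κ + 1) (b := m), hA, hA']
  have hA'card : ((Fintype.piFinset A').card : ℝ) = ∏ i, ((A' i).card : ℝ) := by
    rw [Fintype.card_piFinset]
    push_cast
    rfl
  rw [hcard, hprod, ← hA'card]
  push_cast
  rw [Finset.sum_mul]
  calc ∑ b ∈ Fintype.piFinset A',
        ((T.filter (fun w => (fun i : Fin m => w (Fin.natAdd (κ + 1) i)) = b)).card : ℝ) *
          (N : ℝ) ^ ((1 : ℝ) / 2 ^ (κ + 1))
      ≤ ∑ _b ∈ Fintype.piFinset A', C * ∏ i, ((A i).card : ℝ) := by
        refine Finset.sum_le_sum fun b _ => le_trans ?_ (hS b)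
        refine mul_le_mul_of_nonneg_right ?_ (Real.rpow_nonneg (Nat.cast_nonneg _) _)
        exact_mod_cast hfib b
    _ = C * ((∏ i, ((A i).card : ℝ)) * ((Fintype.piFinset A').card : ℝ)) := by
        rw [Finset.sum_const, nsmul_eq_mul]
        ring

end Pool.Agent.H72.AAP
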