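import Pool.Agent.H72.AAP.FinU
import Pool.Agent.H72.AAP.GT
import Pool.Agent.H72.AAP.AddL
import Pool.Agent.H72.BF.Assemble4
import Pool.Agent.H60.AAP.BOX
import Pool.Agent.H19.AAP.CUF
import Pool.Agent.H19.AAP.EUL
import Pool.Agent.H33.AAP.HTI
import Pool.Agent.H33.AAP.MPR
import Pool.Agent.H54.AAP.INTG
import Pool.Agent.H64.AAP.SM1
import Pool.Agent.H69.AAP.SM2
import Pool.Agent.H72.AAP.LATX

/-!
Assembly of the board aap_modules.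
-/

set_option autoImplicit false

namespace Pool.Agent.H72.AAP

open Pool.Agent
open Pool.Agent.H72.BF (badR badRN)

theorem boxAll : T_BOX := H60.AAP.pf_BOX

theorem cufAll : T_CUF :=
  H19.AAP.CUF.pf_CUF H29.BF.pkg H84.BF.evp H72.BF.bakerFeldman H72.BF.bffAll H72.BF.gcrAll

theorem intgAll : T_INTG :=
  H54.AAP.pf_INTG (H64.AAP.pf_SM1 H33.AAP.pf_HTI H19.AAP.EUL.pf_EUL H33.AAP.pf_MPR)
    (H69.AAP.pf_SM2 boxAll)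

theorem sm1All : T_SM1 := H64.AAP.pf_SM1 H33.AAP.pf_HTI H19.AAP.EUL.pf_EUL H33.AAP.pf_MPR

theorem sm2All : T_SM2 := H69.AAP.pf_SM2 boxAll

/-- values of completely additive functions whose values at the primes are independent logarithms -/
theorem addAll (r n d : ℕ) : ∃ C₁ c : ℝ, 0 < C₁ ∧ 0 < c ∧
    ∀ L : ℕ → ℂ, LogAdd L → ∀ x : ℕ, 3 ≤ x → ∀ A : ℝ, ∃ C : ℝ, 0 < C ∧ ∀ H : ℝ, 2 ≤ H →
    ∀ ξ : Fin r → ℂ, (∀ i, ‖ξ i‖ ≤ H) →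
    (Set.ncard {a : Fin n → ℕ | (∀ i, a i ∈ Finset.Icc 1 x) ∧
      badRN ξ d A C H (fun i => L (a i))} : ℝ) ≤
      C₁ * Real.log (Real.log x) ^ c / Real.log x * (x : ℝ) ^ n :=
  aapAdd (pf_AAPN cufAll) sm1All sm2All r n d

theorem latTAll : T_LAT := pf_LATX boxAll

/-- logarithms of the positive integers up to `x` -/
theorem intAll (r n d : ℕ) : ∃ C₁ c : ℝ, 0 < C₁ ∧ 0 < c ∧
    ∀ x : ℕ, 3 ≤ x → ∀ A : ℝ, ∃ C : ℝ, 0 < C ∧ ∀ H : ℝ, 2 ≤ H → ∀ ξ : Fin r → ℂ,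
    (∀ i, ‖ξ i‖ ≤ H) →
    (Set.ncard {a : Fin n → ℕ | (∀ i, a i ∈ Finset.Icc 1 x) ∧
      badRN ξ d A C H (fun i => (Real.log (a i) : ℂ))} : ℝ) ≤
      C₁ * Real.log (Real.log x) ^ c / Real.log x * (x : ℝ) ^ n :=
  aapInt (pf_AAPN cufAll) intgAll r n d

/-- integer combinations of many independent logarithms -/
theorem latAll (r n d : ℕ) : ∃ (M₀ : ℕ) (C₁ c : ℝ), 0 < C₁ ∧
    0 < c ∧ ∀ M : ℕ, M₀ ≤ M → ∀ μ : Fin M → ℂ, LinearIndependent ℚ μ →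
    (∀ j, IsAlgebraic ℚ (Complex.exp (μ j))) → ∀ A : ℝ, ∃ C : ℝ, 0 < C ∧ ∀ H : ℝ, 2 ≤ H →
    ∀ ξ : Fin r → ℂ, (∀ i, ‖ξ i‖ ≤ H) →
    ∀ (V : Fin M → Finset ℤ) (N : ℕ), 1 ≤ N → (∀ j, N ≤ (V j).card) →
    (∀ j, ∀ v ∈ V j, |(v : ℝ)| ≤ H) →
    (Set.ncard {w : Fin n → Fin M → ℤ | (∀ i, w i ∈ Fintype.piFinset V) ∧
      badRN ξ d A C H (fun i => ∑ j, (w i j : ℂ) * μ j)} : ℝ) ≤
      C₁ * (N : ℝ) ^ (-c) * ((Fintype.piFinset V).card : ℝ) ^ n :=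
  aapLatU H29.BF.pkg H84.BF.evp H84.BF.mnr H72.BF.bakerFeldman H72.BF.bffAll H72.BF.gcrAll
    latTAll r n d

end Pool.Agent.H72.AAP
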