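import Mathlib

/-!
Exchange of the exceptional objects and the scales: if at every scale few objects are bad, then
there are few objects outside of which every object is bad at few scales, for infinitely many
initial segments of the scales.
-/

set_option autoImplicit false

open Filter Finset

namespace Pool.Agent.H72.AAP

open Classical in
/-- Markov's inequality at one initial segment -/
theorem markov2 {α : Type} (Ω : Finset α) (E : α → ℕ → Prop) (δ η N : ℝ) (hη : 0 < η)
    (hE : ∀ k, ((Ω.filter (fun a => E a k)).card : ℝ) ≤ η * (δ * N)) (K : ℕ) (hK : 0 < K) :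
    ((Ω.filter (fun a => ¬ ((((range K).filter (fun k => E a k)).card : ℝ) ≤ η * K))).card : ℝ) ≤
      δ * N := by
  have hKR : (0 : ℝ) < K := by exact_mod_cast hK
  have h1 : ∑ a ∈ Ω, (((range K).filter (fun k => E a k)).card : ℝ) =
      ∑ k ∈ range K, ((Ω.filter (fun a => E a k)).card : ℝ) := by
    have h2 : ∀ a, (((range K).filter (fun k => E a k)).card : ℝ) =
        ∑ k ∈ range K, if E a k then (1 : ℝ) else 0 := by
      intro a
      rw [← sum_filter, sum_const, nsmul_eq_mul, mul_one]
    have h3 : ∀ k, ((Ω.filter (fun a => E a k)).card : ℝ) =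
        ∑ a ∈ Ω, if E a k then (1 : ℝ) else 0 := by
      intro k
      rw [← sum_filter, sum_const, nsmul_eq_mul, mul_one]
    simp only [h2, h3]
    exact sum_comm
  have h4 : ∑ k ∈ range K, ((Ω.filter (fun a => E a k)).card : ℝ) ≤ K * (η * (δ * N)) := by
    calc ∑ k ∈ range K, ((Ω.filter (fun a => E a k)).card : ℝ)
        ≤ ∑ _k ∈ range K, η * (δ * N) := sum_le_sum (fun k _ => hE k)
      _ = K * (η * (δ * N)) := by rw [sum_const, card_range, nsmul_eq_mul]
  set B := Ω.filter (fun a => ¬ ((((range K).filter (fun k => E a k)).card : ℝ) ≤ η * K)) with hB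
  have h5 : (B.card : ℝ) * (η * K) ≤
      ∑ a ∈ Ω, (((range K).filter (fun k => E a k)).card : ℝ) := by
    calc (B.card : ℝ) * (η * K) = ∑ _a ∈ B, η * K := by rw [sum_const, nsmul_eq_mul]
      _ ≤ ∑ a ∈ B, (((range K).filter (fun k => E a k)).card : ℝ) := by
          refine sum_le_sum ?_
          intro a ha
          rw [hB, mem_filter, not_le] at ha
          exact ha.2.le
      _ ≤ ∑ a ∈ Ω, (((range K).filter (fun k => E a k)).card : ℝ) := by
          refine sum_le_sum_of_subset_of_nonneg (filter_subset _ _) ?_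
          intro i _ _
          positivity
  have h6 : (B.card : ℝ) * (η * K) ≤ (δ * N) * (η * K) := by
    rw [h1] at h5
    calc (B.card : ℝ) * (η * K) ≤ K * (η * (δ * N)) := h5.trans h4
      _ = (δ * N) * (η * K) := by ring
  exact le_of_mul_le_mul_right h6 (by positivity)

open Classical in
/-- Exchange of objects and scales. -/
theorem exchange2 {α : Type} (Ω : Finset α) (E : α → ℕ → Prop) (δ η N : ℝ) (hη : 0 < η)
    (hE : ∀ k, ((Ω.filter (fun a => E a k)).card : ℝ) ≤ η * (δ * N)) :
    ∃ G : Finset α, G ⊆ Ω ∧ (Ω.card : ℝ) - δ * N ≤ G.card ∧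
      ∃ᶠ K : ℕ in atTop, ∀ a ∈ G, (((range K).filter (fun k => E a k)).card : ℝ) ≤ η * K := by
  have h1 : ∃ G ∈ Ω.powerset, ∃ᶠ K : ℕ in atTop,
      Ω.filter (fun a => (((range K).filter (fun k => E a k)).card : ℝ) ≤ η * K) = G := by
    by_contra hcon
    push Not at hcon
    have h2 : ∀ G ∈ Ω.powerset, ∀ᶠ K : ℕ in atTop,
        Ω.filter (fun a => (((range K).filter (fun k => E a k)).card : ℝ) ≤ η * K) ≠ G := by
      intro G hG
      exact hcon G hG
    have h3 := (eventually_all_finset (Ω.powerset)).2 h2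
    obtain ⟨K, hK⟩ := h3.exists
    exact hK _ (mem_powerset.2 (filter_subset _ _)) rfl
  obtain ⟨G, hG, hf⟩ := h1
  refine ⟨G, mem_powerset.1 hG, ?_, ?_⟩
  · obtain ⟨K, hK, hK0⟩ := (hf.and_eventually (eventually_gt_atTop 0)).exists
    have h2 := markov2 Ω E δ η N hη hE K hK0
    have h3 := card_filter_add_card_filter_not (s := Ω)
      (fun a => (((range K).filter (fun k => E a k)).card : ℝ) ≤ η * K)
    rw [hK] at h3
    have h4 : (G.card : ℝ) +
        ((Ω.filter (fun a => ¬ ((((range K).filter (fun k => E a k)).card : ℝ) ≤ η * K))).card : ℝ) =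
        Ω.card := by exact_mod_cast h3
    linarith
  · refine hf.mono ?_
    intro K hK a ha
    rw [← hK, mem_filter] at ha
    exact ha.2

end Pool.Agent.H72.AAP
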