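import Pool.Agent.H72.AAP.AAPN
import Pool.Agent.H67.BF.AAR
import Pool.Agent.H67.BF.CNTR

/-!
Cube free sets of exceptional points in the lattice of integer combinations of independent
logarithms, uniformly for all combinations of height at most `H`.
-/

set_option autoImplicit false

open Finset Filter Polynomial

namespace Pool.Agent.H72.AAP

open Pool.Agent.H72.BF

lemma snoc_ev2 {H : ℕ → ℝ} (P : Pkg H) {r : ℕ} (ξ : ℕ → Fin r → ℂ) (z : ℕ → ℂ) :
    (fun i => P.ev (fun j => (Fin.snoc (ξ j) (z j) : Fin (r + 1) → ℂ) i)) =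
      (Fin.snoc (fun i => P.ev (fun j => ξ j i)) (P.ev z) : Fin (r + 1) → P.F) := by
  funext i
  refine Fin.lastCases ?_ (fun j => ?_) i
  · simp
  · simp

/-- a sequence of points which are bad at almost all scales satisfies a relation in the residue
field -/
lemma rel_of_ev2 (hEVP : T_EVP) {H : ℕ → ℝ} (P : Pkg H) {r : ℕ} (d : ℕ) (A : ℝ)
    (ξ : ℕ → Fin r → ℂ) (hξ : ∀ j i, ‖ξ j i‖ ≤ H j) (z : ℕ → ℂ) (hzO : z ∈ P.O)
    (h : ∀ᶠ j : ℕ in (hyperfilter ℕ : Filter ℕ), badR (ξ j) d A ((j : ℝ) + 1) (H j) (z j)) :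
    RelR P.kb (fun i => P.ev (fun j => ξ j i)) d (P.ev z) := by
  classical
  have key : ∀ j, ∃ Q : MvPolynomial (Fin (r + 1)) ℤ, Q.totalDegree ≤ d ∧
      (∀ m : Fin (r + 1) →₀ ℕ, |((Q.coeff m : ℤ) : ℝ)| ≤ H j) ∧
      (badR (ξ j) d A ((j : ℝ) + 1) (H j) (z j) →
        H j ^ ((j : ℝ) + 1) * ‖MvPolynomial.aeval (Fin.snoc (ξ j) (z j) : Fin (r + 1) → ℂ) Q‖ < 1 ∧
        ∃ i : ℕ, 1 ≤ H j ^ A *
        ‖(MvPolynomial.aeval (Fin.snoc (fun i => Polynomial.C (ξ j i)) Polynomial.X :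
          Fin (r + 1) → ℂ[X]) Q).coeff i‖) := by
    intro j
    by_cases hb : badR (ξ j) d A ((j : ℝ) + 1) (H j) (z j)
    · obtain ⟨Q, h1, h2, h3, h4⟩ := hb
      exact ⟨Q, h1, h2, fun _ => ⟨h3, h4⟩⟩
    · refine ⟨0, by simp, ?_, fun h => absurd h hb⟩
      intro m
      have h2 := P.hH j
      simp
      linarith
  choose Q h1 h2 h3 using key
  have hco' : ∀ j, ∀ m : Fin (r + 1) →₀ ℕ, |(((Q j).coeff m : ℤ) : ℝ)| ≤ H j ^ 1 := by
    intro j m; rw [pow_one]; exact h2 j m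
  obtain ⟨Q', hQd, hQc, hQe⟩ := hEVP H P (Fin (r + 1)) d 1 Q h1 hco'
  have hξO : ∀ i, (fun j => ξ j i) ∈ P.O := fun i =>
    P.mem_of_le 1 fun j => by rw [pow_one]; exact hξ j i
  have hxO : ∀ (y : ℕ → ℂ), y ∈ P.O → ∀ (i : Fin (r + 1)),
      (fun j => (Fin.snoc (ξ j) (y j) : Fin (r + 1) → ℂ) i) ∈ P.O := by
    intro y hy i
    refine Fin.lastCases ?_ (fun j => ?_) i
    · simpa using hy
    · simpa using hξO j
  have hEv : ∀ y : ℕ → ℂ, y ∈ P.O →
      (fun j => MvPolynomial.aeval (Fin.snoc (ξ j) (y j) : Fin (r + 1) → ℂ) (Q j)) ∈ P.O ∧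
      MvPolynomial.aeval (Fin.snoc (fun i => P.ev (fun j => ξ j i)) (P.ev y) :
        Fin (r + 1) → P.F) Q' =
      P.ev (fun j => MvPolynomial.aeval (Fin.snoc (ξ j) (y j) : Fin (r + 1) → ℂ) (Q j)) := by
    intro y hy
    have := hQe (fun j => (Fin.snoc (ξ j) (y j) : Fin (r + 1) → ℂ)) (hxO y hy)
    rw [snoc_ev2] at this
    exact this
  refine ⟨MvPolynomial.map (algebraMap P.kk P.kb) Q', ?_, ?_, ?_⟩
  · exact (Finset.sup_mono (MvPolynomial.support_map_subset _ _)).trans hQd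
  · rw [MvPolynomial.aeval_map_algebraMap, (hEv z hzO).2, P.ev_eq_zero (hEv z hzO).1]
    intro c
    filter_upwards [Pool.Agent.H67.BF.AAR.ev_ge c, h] with j hj hb
    have h4 := (h3 j hb).1
    have h1 := P.hH j
    have h2 : H j ^ c ≤ H j ^ ((j : ℝ) + 1) := by
      rw [← Real.rpow_natCast]
      refine Real.rpow_le_rpow_of_exponent_le (by linarith) ?_
      have : (c : ℝ) ≤ j := by exact_mod_cast hj
      linarith
    have h3 : 0 ≤ ‖MvPolynomial.aeval (Fin.snoc (ξ j) (z j) : Fin (r + 1) → ℂ) (Q j)‖ :=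
      norm_nonneg _
    nlinarith [mul_le_mul_of_nonneg_right h2 h3]
  · intro hz
    have hc0 : ∀ c : ℕ, P.ev (fun j => MvPolynomial.aeval (Fin.snoc (ξ j) (c : ℂ) :
        Fin (r + 1) → ℂ) (Q j)) = 0 := by
      intro c
      rw [← (hEv (fun _ => (c : ℂ)) (P.const_mem _)).2]
      have h5 := congrArg (fun p => Polynomial.eval (P.ev (fun _ => (c : ℂ))) p) hz
      simp only [Polynomial.eval_zero] at h5
      rw [Pool.Agent.H67.BF.AAR.eval_aeval_snoc, MvPolynomial.aeval_map_algebraMap] at h5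
      exact h5
    obtain ⟨M, hM0, hM⟩ := Pool.Agent.H67.BF.AAR.lagr d
    obtain ⟨m, hm⟩ := pow_unbounded_of_one_lt M (by norm_num : (1 : ℝ) < 2)
    set n : ℕ := ⌈|A|⌉₊ with hn
    have hev : ∀ᶠ j in (hyperfilter ℕ : Filter ℕ), ∀ c ∈ Finset.range (d + 1),
        ‖MvPolynomial.aeval (Fin.snoc (ξ j) (c : ℂ) : Fin (r + 1) → ℂ) (Q j)‖ *
          H j ^ (n + m) ≤ 1 :=
      (Filter.eventually_all_finset _).2 fun c _ =>
        (P.ev_eq_zero (hEv (fun _ => (c : ℂ)) (P.const_mem _)).1).1 (hc0 c) (n + m)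
    obtain ⟨j, hj, hb⟩ := (hev.and h).exists
    obtain ⟨-, i, hi⟩ := h3 j hb
    have hH := P.hH j
    have hHp : 0 < H j := by linarith
    have hnm : 0 < H j ^ (n + m) := pow_pos hHp _
    set p := MvPolynomial.aeval (Fin.snoc (fun i => Polynomial.C (ξ j i)) Polynomial.X :
          Fin (r + 1) → ℂ[X]) (Q j) with hp
    have hpd : p.natDegree ≤ d := by
      refine Pool.Agent.H67.BF.AAR.aeval_natDegree (Q j) (h1 j) _ fun i => ?_
      refine Fin.lastCases ?_ (fun j => ?_) i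
      · simp
      · simp
    have hb2 : ∀ c ≤ d, ‖p.eval (c : ℂ)‖ ≤ (H j ^ (n + m))⁻¹ := by
      intro c hc
      rw [hp, Pool.Agent.H67.BF.AAR.eval_aeval_snoc]
      have := hj c (Finset.mem_range.2 (by omega))
      rw [← one_div, le_div_iff₀ hnm]
      exact this
    have h6 := hM p hpd _ hb2 i
    have h7 : H j ^ A ≤ H j ^ n := by
      rw [← Real.rpow_natCast]
      refine Real.rpow_le_rpow_of_exponent_le (by linarith) ?_
      exact (le_abs_self A).trans (Nat.le_ceil _)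
    have h8 : 1 ≤ H j ^ n * ((H j ^ (n + m))⁻¹ * M) := by
      refine hi.trans ?_
      exact mul_le_mul h7 h6 (norm_nonneg _) (pow_pos hHp _).le
    have h9 : H j ^ n * ((H j ^ (n + m))⁻¹ * M) = M / H j ^ m := by
      rw [pow_add]
      field_simp
    rw [h9, le_div_iff₀ (pow_pos hHp _), one_mul] at h8
    have h10 : (2 : ℝ) ^ m ≤ H j ^ m := pow_le_pow_left₀ (by norm_num) hH m
    linarith

/-- the points of height at most `H` in the group generated by the `μ j` -/
def LatSet {M : ℕ} (μ : Fin M → ℂ) (H : ℝ) : Set ℂ :=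
  {z : ℂ | ∃ w : Fin M → ℤ, (∀ j, |(w j : ℝ)| ≤ H) ∧ z = ∑ j, (w j : ℂ) * μ j}

/-- linear independence in the residue field of combinations of the `μ j` -/
lemma li_of_seq (hMNR : T_MNR) (hBF : BakerFeldman) (hBFF : T_BFF) {M : ℕ} (μ : Fin M → ℂ)
    (hμ : LinearIndependent ℚ μ) (halg : ∀ j, IsAlgebraic ℚ (Complex.exp (μ j))) {H : ℕ → ℝ}
    (P : Pkg H) (k : ℕ) (c : ℕ → Fin k → Fin M → ℤ) (hc : ∀ s i, P.Bd (fun j => c j s i))
    (hli : ∀ j, LinearIndependent ℚ (fun s => ∑ i, (c j s i : ℂ) * μ i)) :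
    LinearIndependent P.kb (fun s => P.ev (fun j => ∑ i, (c j s i : ℂ) * μ i)) := by
  classical
  have h1 : ∀ j, LinearIndependent ℚ (fun (s : Fin k) (i : Fin M) => (c j s i : ℚ)) := by
    intro j
    let φ : (Fin M → ℚ) →ₗ[ℚ] ℂ := Fintype.linearCombination ℚ μ
    have h2 : (fun s => ∑ i, (c j s i : ℂ) * μ i) =
        φ ∘ (fun (s : Fin k) (i : Fin M) => (c j s i : ℚ)) := by
      funext s
      simp only [φ, Function.comp_apply, Fintype.linearCombination_apply]
      refine Finset.sum_congr rfl fun i _ => ?_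
      rw [Rat.smul_def]
      simp
    have h3 := hli j
    rw [h2] at h3
    exact LinearIndependent.of_comp φ h3
  have h4 := hMNR H P k (Fin M) c hc h1
  have hcst : LinearIndependent P.kb (fun i => P.cst (μ i)) := by
    have := (hBFF hBF M μ hμ halg H P).comp Fin.succ (Fin.succ_injective _)
    simpa [Function.comp_def] using this
  have hkk : ∀ s i, P.evZ (fun j => c j s i) ∈ P.kk := fun s i =>
    Subfield.subset_closure ⟨_, hc s i, rfl⟩
  rw [Fintype.linearIndependent_iff]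
  intro g hg s
  have h5 : ∀ s, P.ev (fun j => ∑ i, (c j s i : ℂ) * μ i) =
      ∑ i, P.evZ (fun j => c j s i) * P.cst (μ i) := by
    intro s
    have h6 : (fun j => ∑ i, (c j s i : ℂ) * μ i) =
        ∑ i, ((fun j => (c j s i : ℂ)) * (fun _ => μ i)) := by
      funext j
      simp [Finset.sum_apply]
    rw [h6, P.ev_sum _ _ (fun i _ => P.O.mul_mem (hc s i) (P.const_mem _))]
    refine Finset.sum_congr rfl fun i _ => ?_
    rw [P.ev_mul (hc s i) (P.const_mem _)]
    rfl
  let e : Fin k → Fin M → P.kb := fun s i => algebraMap P.kk P.kb ⟨P.evZ (fun j => c j s i), hkk s i⟩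
  have he : ∀ s i, ((e s i : P.kb) : P.F) = P.evZ (fun j => c j s i) := by
    intro s i
    rfl
  have h7 : ∑ i, (∑ s, g s * e s i) • P.cst (μ i) = 0 := by
    rw [← hg]
    simp only [h5, Finset.sum_smul, Finset.smul_sum]
    rw [Finset.sum_comm]
    refine Finset.sum_congr rfl fun s _ => Finset.sum_congr rfl fun i _ => ?_
    rw [← he, mul_smul]
    rfl
  have h8 := Fintype.linearIndependent_iff.1 hcst _ h7
  have h9 : ∑ s, ((g s : P.kb) : P.F) • (fun (i : Fin M) => P.evZ (fun j => c j s i)) = 0 := by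
    funext i
    have h10 : ((∑ s, g s * e s i : P.kb) : P.F) = 0 := by
      rw [h8 i]
      rfl
    simp only [Finset.sum_apply, Pi.smul_apply, smul_eq_mul, Pi.zero_apply]
    refine Eq.trans ?_ h10
    push_cast
    refine Finset.sum_congr rfl fun s _ => ?_
    rw [he]
  have h11 := Fintype.linearIndependent_iff.1 h4 _ h9 s
  exact_mod_cast h11

/-- at every height the exceptional set contains no large cubes, uniformly for all points of height
at most `H` -/
theorem cuh (hPKG : T_PKG) (hEVP : T_EVP) (hMNR : T_MNR) (hBF : BakerFeldman) (hBFF : T_BFF)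
    (hG : T_GCR) : ∀ r d : ℕ, ∃ κ : ℕ, ∀ (M : ℕ) (μ : Fin M → ℂ), LinearIndependent ℚ μ →
    (∀ j, IsAlgebraic ℚ (Complex.exp (μ j))) → ∀ A : ℝ, ∃ C : ℝ, 0 < C ∧ ∀ H : ℝ, 2 ≤ H →
    ∀ ξ : Fin r → ℂ, (∀ i, ‖ξ i‖ ≤ H) →
    CubeFree κ {z : ℂ | z ∈ LatSet μ H ∧ badR ξ d A C H z} := by
  classical
  intro r d
  obtain ⟨κ, hκ⟩ := hG r d
  refine ⟨κ, fun M μ hμ halg A => ?_⟩
  by_contra hcon
  push Not at hcon
  choose H hH2 ξ hξ hH using fun j : ℕ => hcon ((j : ℝ) + 1) (by positivity)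
  obtain ⟨P⟩ := hPKG H hH2
  -- a large cube at every scale
  have hcube : ∀ j, ∃ (v : ℂ) (u : Fin (κ + 1) → ℂ), LinearIndependent ℚ u ∧
      ∀ I : Finset (Fin (κ + 1)), v + ∑ i ∈ I, u i ∈
        {z : ℂ | z ∈ LatSet μ (H j) ∧ badR (ξ j) d A ((j : ℝ) + 1) (H j) z} := by
    intro j
    have h1 := hH j
    unfold CubeFree at h1
    push Not at h1
    obtain ⟨v, k, u, hu, hI, hk⟩ := h1
    refine ⟨v, fun i => u (Fin.castLE hk i), hu.comp _ (Fin.castLE_injective hk), fun I => ?_⟩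
    have h2 := hI (I.map (Fin.castLEEmb hk))
    rw [Finset.sum_map] at h2
    exact h2
  choose v u hu hI using hcube
  have hw : ∀ j (I : Finset (Fin (κ + 1))), ∃ w : Fin M → ℤ, (∀ i, |(w i : ℝ)| ≤ H j) ∧
      v j + ∑ i ∈ I, u j i = ∑ i, (w i : ℂ) * μ i := fun j I => (hI j I).1
  choose w hw1 hw2 using hw
  have hwB : ∀ (I : Finset (Fin (κ + 1))) (i : Fin M), P.Bd (fun j => w j I i) := fun I i =>
    P.bd_of_le 1 fun j => by rw [pow_one]; exact hw1 j I i
  set c : ℕ → Fin (κ + 1) → Fin M → ℤ := fun j s i => w j {s} i - w j ∅ i with hc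
  have hcB : ∀ s i, P.Bd (fun j => c j s i) := by
    intro s i
    have := (hwB {s} i).add (hwB ∅ i).neg
    simpa [hc, sub_eq_add_neg] using this
  have huc : ∀ j s, u j s = ∑ i, (c j s i : ℂ) * μ i := by
    intro j s
    have h1 := hw2 j {s}
    have h2 := hw2 j ∅
    rw [Finset.sum_singleton] at h1
    rw [Finset.sum_empty, add_zero] at h2
    have h3 : u j s = ∑ i, (w j {s} i : ℂ) * μ i - ∑ i, (w j ∅ i : ℂ) * μ i := by
      rw [← h1, ← h2]
      ring
    rw [h3, ← Finset.sum_sub_distrib]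
    refine Finset.sum_congr rfl fun i _ => ?_
    simp only [hc]
    push_cast
    ring
  have hli := li_of_seq hMNR hBF hBFF μ hμ halg P (κ + 1) c hcB (fun j => by
    have h1 := hu j
    have h2 : u j = fun s => ∑ i, (c j s i : ℂ) * μ i := funext (huc j)
    rwa [h2] at h1)
  have hmemO : ∀ (a : ℕ → Fin M → ℤ), (∀ i, P.Bd (fun j => a j i)) →
      (fun j => ∑ i, (a j i : ℂ) * μ i) ∈ P.O := by
    intro a ha
    have h6 : (fun j => ∑ i, (a j i : ℂ) * μ i) =
        ∑ i, ((fun j => (a j i : ℂ)) * (fun _ => μ i)) := by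
      funext j
      simp [Finset.sum_apply]
    rw [h6]
    exact P.O.sum_mem fun i _ => P.O.mul_mem (ha i) (P.const_mem _)
  have hvO : v ∈ P.O := by
    have h1 : v = fun j => ∑ i, (w j ∅ i : ℂ) * μ i := by
      funext j
      have := hw2 j ∅
      rwa [Finset.sum_empty, add_zero] at this
    rw [h1]
    exact hmemO (fun j => w j ∅) (hwB ∅)
  have huO : ∀ s, (fun j => u j s) ∈ P.O := by
    intro s
    have h1 : (fun j => u j s) = fun j => ∑ i, (c j s i : ℂ) * μ i := by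
      funext j
      exact huc j s
    rw [h1]
    exact hmemO (fun j => c j s) (hcB s)
  have hcz : CharZero P.kb := by infer_instance
  have hfin := hκ P.kb P.F (fun i => P.ev (fun j => ξ j i)) (P.ev v) (κ + 1)
    (fun s => P.ev (fun j => u j s)) (by
      have h2 : (fun s => P.ev (fun j => u j s)) =
          fun s => P.ev (fun j => ∑ i, (c j s i : ℂ) * μ i) := by
        funext s
        congr 1
        funext j
        exact huc j s
      rw [h2]
      exact hli) (by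
      intro I
      have h3 := rel_of_ev2 hEVP P d A ξ hξ (fun j => v j + ∑ i ∈ I, u j i) (by
        have h4 : (fun j => v j + ∑ i ∈ I, u j i) = v + ∑ i ∈ I, (fun j => u j i) := by
          funext j
          simp [Finset.sum_apply]
        rw [h4]
        exact P.O.add_mem hvO (P.O.sum_mem fun i _ => huO i))
        (Filter.Eventually.of_forall fun j => (hI j I).2)
      have h4 : (fun j => v j + ∑ i ∈ I, u j i) = v + ∑ i ∈ I, (fun j => u j i) := by
        funext j
        simp [Finset.sum_apply]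
      rw [h4, P.ev_add hvO (P.O.sum_mem fun i _ => huO i),
        P.ev_sum _ _ (fun i _ => huO i)] at h3
      exact h3)
  omega

end Pool.Agent.H72.AAP
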