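import Pool.Agent.H72.AAP.AAPN
import Pool.Agent.H72.AAP.Avg2

open Finset Filter

namespace Pool.Agent.H72.AAP

open Pool.Agent
open Pool.Agent.H72.BF (badR badRN)

/-- transfer of the count of bad tuples from complex numbers to an index set -/
theorem ncard_index {α : Type} {r n : ℕ} (Ω : Finset α) (z : α → ℂ)
    (hz : ∀ a ∈ Ω, ∀ b ∈ Ω, z a = z b → a = b) (ξ : Fin r → ℂ) (d : ℕ) (A C H : ℝ) :
    Set.ncard {a : Fin n → α | (∀ i, a i ∈ Ω) ∧ badRN ξ d A C H (fun i => z (a i))} ≤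
      Set.ncard {a : Fin n → ℂ | (∀ i, a i ∈ Ω.image z) ∧ badRN ξ d A C H a} := by
  classical
  have hfin : Set.Finite {a : Fin n → ℂ | (∀ i, a i ∈ Ω.image z) ∧ badRN ξ d A C H a} := by
    refine Set.Finite.subset (Set.Finite.pi' (fun _ : Fin n => (Ω.image z).finite_toSet)) ?_
    intro a ha i
    exact ha.1 i
  refine Set.ncard_le_ncard_of_injOn (fun a i => z (a i)) ?_ ?_ hfin
  · intro a ha
    refine ⟨fun i => ?_, ha.2⟩
    rw [Finset.mem_image]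
    exact ⟨a i, ha.1 i, rfl⟩
  · intro a ha b hb hab
    funext i
    exact hz _ (ha.1 i) _ (hb.1 i) (congrFun hab i)

/-- the count of bad tuples for an index set all of whose cube free subsets are small -/
theorem bad_index (hAAPN : T_AAPN) (r n d : ℕ) : ∃ κ : ℕ, ∀ (α : Type) (Ω : Finset α) (z : α → ℂ)
    (ε : ℝ), (∀ a ∈ Ω, ∀ b ∈ Ω, z a = z b → a = b) → (∀ a ∈ Ω, IsAlgebraic ℚ (Complex.exp (z a))) →
    0 ≤ ε → (∀ B : Set ℂ, CubeFree κ B → (Set.ncard {a : α | a ∈ Ω ∧ z a ∈ B} : ℝ) ≤ ε * Ω.card) →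
    ∀ A : ℝ, ∃ C : ℝ, 0 < C ∧ ∀ H : ℝ, 2 ≤ H → ∀ ξ : Fin r → ℂ, (∀ i, ‖ξ i‖ ≤ H) →
    (Set.ncard {a : Fin n → α | (∀ i, a i ∈ Ω) ∧ badRN ξ d A C H (fun i => z (a i))} : ℝ) ≤
      n * ε * (Ω.card : ℝ) ^ n := by
  classical
  obtain ⟨κ, hκ⟩ := hAAPN r n d
  refine ⟨κ, fun α Ω z ε hz halg hε hB A => ?_⟩
  have hcard : (Ω.image z).card = Ω.card :=
    Finset.card_image_of_injOn (fun a ha b hb h => hz a ha b hb h)
  obtain ⟨C, hC, h⟩ := hκ (Ω.image z) ε (fun w hw => by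
    rw [Finset.mem_image] at hw
    obtain ⟨a, ha, rfl⟩ := hw
    exact halg a ha) hε (fun B hcf => by
    have h1 := hB B hcf
    rw [hcard]
    refine le_trans ?_ h1
    have h2 : {w : ℂ | w ∈ Ω.image z ∧ w ∈ B} = z '' {a : α | a ∈ Ω ∧ z a ∈ B} := by
      ext w
      simp only [Set.mem_setOf_eq, Finset.mem_image, Set.mem_image]
      constructor
      · rintro ⟨⟨a, ha, rfl⟩, hw⟩
        exact ⟨a, ⟨ha, hw⟩, rfl⟩
      · rintro ⟨a, ⟨ha, hw⟩, rfl⟩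
        exact ⟨⟨a, ha, rfl⟩, hw⟩
    rw [h2]
    have h3 : ({a : α | a ∈ Ω ∧ z a ∈ B}).Finite := Ω.finite_toSet.subset (fun a ha => ha.1)
    exact_mod_cast Set.ncard_image_le h3) A
  refine ⟨C, hC, fun H hH ξ hξ => ?_⟩
  have h4 := h H hH ξ hξ
  rw [hcard] at h4
  refine le_trans ?_ h4
  exact_mod_cast ncard_index Ω z hz ξ d A C H

/-- logarithms of integers at one height -/
theorem aapInt (hAAPN : T_AAPN) (hINTG : T_INTG) (r n d : ℕ) : ∃ C₁ c : ℝ, 0 < C₁ ∧ 0 < c ∧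
    ∀ x : ℕ, 3 ≤ x → ∀ A : ℝ, ∃ C : ℝ, 0 < C ∧ ∀ H : ℝ, 2 ≤ H → ∀ ξ : Fin r → ℂ,
    (∀ i, ‖ξ i‖ ≤ H) →
    (Set.ncard {a : Fin n → ℕ | (∀ i, a i ∈ Finset.Icc 1 x) ∧
      badRN ξ d A C H (fun i => (Real.log (a i) : ℂ))} : ℝ) ≤
      C₁ * Real.log (Real.log x) ^ c / Real.log x * (x : ℝ) ^ n := by
  obtain ⟨κ, hκ⟩ := bad_index hAAPN r n d
  obtain ⟨C1, c, hC1, hc, h1⟩ := hINTG κ
  refine ⟨n * C1 + 1, c, by positivity, hc, fun x hx A => ?_⟩
  have hx3 : (3 : ℝ) ≤ (x : ℝ) := by exact_mod_cast hx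
  have hx0 : (0 : ℝ) < (x : ℝ) := by linarith
  have hlog1 : 1 < Real.log x := by
    rw [Real.lt_log_iff_exp_lt hx0]
    have := Real.exp_one_lt_d9
    linarith
  have hlog : 0 < Real.log x := by linarith
  have hll : 0 < Real.log (Real.log x) := Real.log_pos hlog1
  have hllc : 0 < Real.log (Real.log x) ^ c := Real.rpow_pos_of_pos hll _
  have hcard : ((Finset.Icc 1 x).card : ℝ) = x := by simp
  obtain ⟨C, hC, h2⟩ := hκ ℕ (Finset.Icc 1 x) (fun a => (Real.log a : ℂ))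
    (C1 * Real.log (Real.log x) ^ c / Real.log x) (fun a ha b hb h => by
      rw [Finset.mem_Icc] at ha hb
      have h1 : Real.log (a : ℝ) = Real.log (b : ℝ) := by
        have : ((Real.log (a : ℝ) : ℝ) : ℂ) = ((Real.log (b : ℝ) : ℝ) : ℂ) := h
        exact_mod_cast this
      have h2 := Real.log_injOn_pos (Set.mem_Ioi.2 (by exact_mod_cast ha.1))
        (Set.mem_Ioi.2 (by exact_mod_cast hb.1)) h1
      exact_mod_cast h2) (fun m hm => by
      rw [Finset.mem_Icc] at hm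
      have hpos : (0 : ℝ) < m := by exact_mod_cast hm.1
      have : Complex.exp ((Real.log (m : ℝ) : ℝ) : ℂ) = (m : ℂ) := by
        rw [← Complex.ofReal_exp, Real.exp_log hpos]
        simp
      rw [this]
      exact isAlgebraic_nat m) (by positivity) (fun B hB => by
      have h3 := h1 B hB x hx
      rw [hcard]
      have h6 : {a : ℕ | a ∈ Finset.Icc 1 x ∧ (Real.log a : ℂ) ∈ B} =
          {a : ℕ | 1 ≤ a ∧ a ≤ x ∧ (Real.log a : ℂ) ∈ B} := by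
        ext a
        simp only [Set.mem_setOf_eq, Finset.mem_Icc, and_assoc]
      rw [h6, div_mul_eq_mul_div, le_div_iff₀ hlog]
      calc _ ≤ C1 * x * Real.log (Real.log x) ^ c := h3
        _ = C1 * Real.log (Real.log x) ^ c * x := by ring) A
  refine ⟨C, hC, fun H hH ξ hξ => (h2 H hH ξ hξ).trans ?_⟩
  rw [hcard]
  refine mul_le_mul_of_nonneg_right ?_ (by positivity)
  rw [← mul_div_assoc, ← mul_assoc]
  refine div_le_div_of_nonneg_right ?_ hlog.le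
  exact mul_le_mul_of_nonneg_right (by linarith) hllc.le

/-- combinations of many independent logarithms at one height -/
theorem aapLat (hAAPN : T_AAPN) (hLAT : T_LAT) (r n d : ℕ) : ∃ (M₀ : ℕ) (C₁ c : ℝ), 0 < C₁ ∧
    0 < c ∧ ∀ M : ℕ, M₀ ≤ M → ∀ μ : Fin M → ℂ, LinearIndependent ℚ μ →
    (∀ j, IsAlgebraic ℚ (Complex.exp (μ j))) → ∀ (V : Fin M → Finset ℤ) (N : ℕ), 1 ≤ N →
    (∀ j, N ≤ (V j).card) → ∀ A : ℝ, ∃ C : ℝ, 0 < C ∧ ∀ H : ℝ, 2 ≤ H → ∀ ξ : Fin r → ℂ,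
    (∀ i, ‖ξ i‖ ≤ H) →
    (Set.ncard {w : Fin n → Fin M → ℤ | (∀ i, w i ∈ Fintype.piFinset V) ∧
      badRN ξ d A C H (fun i => ∑ j, (w i j : ℂ) * μ j)} : ℝ) ≤
      C₁ * (N : ℝ) ^ (-c) * ((Fintype.piFinset V).card : ℝ) ^ n := by
  obtain ⟨κ, hκ⟩ := bad_index hAAPN r n d
  obtain ⟨C1, hC1, h1⟩ := hLAT κ
  refine ⟨κ + 1, n * C1 + 1, 1 / 2 ^ (κ + 1), by positivity, by positivity,
    fun M hM μ hμ halg V N hN hV A => ?_⟩
  have hN0 : (0 : ℝ) < (N : ℝ) := by exact_mod_cast hN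
  have hNc : (0 : ℝ) < (N : ℝ) ^ ((1 : ℝ) / 2 ^ (κ + 1)) := Real.rpow_pos_of_pos hN0 _
  have hNc' : (0 : ℝ) < (N : ℝ) ^ (-((1 : ℝ) / 2 ^ (κ + 1))) := Real.rpow_pos_of_pos hN0 _
  have hcard : ((Fintype.piFinset V).card : ℝ) = ∏ j, ((V j).card : ℝ) := by
    rw [Fintype.card_piFinset]
    push_cast
    rfl
  obtain ⟨C, hC, h2⟩ := hκ (Fin M → ℤ) (Fintype.piFinset V) (fun w => ∑ j, (w j : ℂ) * μ j)
    (C1 * (N : ℝ) ^ (-((1 : ℝ) / 2 ^ (κ + 1)))) (fun a _ b _ h => by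
      have h3 : ∑ j, ((a j - b j : ℤ) : ℚ) • μ j = 0 := by
        have h4 : ∑ j, ((a j - b j : ℤ) : ℚ) • μ j =
            ∑ j, (a j : ℂ) * μ j - ∑ j, (b j : ℂ) * μ j := by
          rw [← Finset.sum_sub_distrib]
          refine Finset.sum_congr rfl fun j _ => ?_
          rw [Rat.smul_def]
          push_cast
          ring
        rw [h4, h, sub_self]
      have h5 := Fintype.linearIndependent_iff.1 hμ _ h3
      funext j
      have h6 := h5 j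
      have h7 : a j - b j = 0 := by exact_mod_cast h6
      omega) (fun w _ => by
      have h3 : Complex.exp (∑ j, (w j : ℂ) * μ j) = ∏ j, Complex.exp (μ j) ^ (w j) := by
        rw [Complex.exp_sum]
        refine Finset.prod_congr rfl fun j _ => ?_
        rw [Complex.exp_int_mul]
      rw [h3]
      refine Finset.prod_induction _ (IsAlgebraic ℚ) (fun a b ha hb => ha.mul hb) isAlgebraic_one
        fun j _ => ?_
      rcases Int.eq_nat_or_neg (w j) with ⟨m, hm | hm⟩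
      · rw [hm, zpow_natCast]
        exact (halg j).pow m
      · rw [hm, zpow_neg, zpow_natCast]
        exact ((halg j).pow m).inv) (by positivity) (fun B hB => by
      have h3 := h1 B hB M hM μ hμ V N hN hV
      rw [hcard]
      have h6 : {w : Fin M → ℤ | w ∈ Fintype.piFinset V ∧ ∑ j, (w j : ℂ) * μ j ∈ B} =
          {w : Fin M → ℤ | (∀ j, w j ∈ V j) ∧ ∑ j, (w j : ℂ) * μ j ∈ B} := by
        ext w
        simp only [Set.mem_setOf_eq, Fintype.mem_piFinset]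
      rw [h6]
      have h7 : C1 * (N : ℝ) ^ (-((1 : ℝ) / 2 ^ (κ + 1))) * ∏ j, ((V j).card : ℝ) =
          (C1 * ∏ j, ((V j).card : ℝ)) / (N : ℝ) ^ ((1 : ℝ) / 2 ^ (κ + 1)) := by
        rw [Real.rpow_neg hN0.le]
        field_simp
      rw [h7, le_div_iff₀ hNc]
      exact h3) A
  refine ⟨C, hC, fun H hH ξ hξ => (h2 H hH ξ hξ).trans ?_⟩
  refine mul_le_mul_of_nonneg_right ?_ (by positivity)
  nlinarith

end Pool.Agent.H72.AAP
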