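import Pool.Agent.H72.AAP.Fin
import Pool.Agent.H72.AAP.AAPU

/-!
Integer combinations of many independent logarithms, uniformly for all coefficient sets.
-/

set_option autoImplicit false

open Finset Filter

namespace Pool.Agent.H72.AAP

open Pool.Agent
open Pool.Agent.H72.BF

/-- the family of the combinations of the `μ j` of height at most `H` -/
theorem latFam (κ : ℕ → ℕ → ℕ) {M : ℕ} (μ : Fin M → ℂ)
    (h : ∀ (r d : ℕ) (A : ℝ), ∃ C : ℝ, 0 < C ∧ ∀ H : ℝ, 2 ≤ H →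
      ∀ ξ : Fin r → ℂ, (∀ i, ‖ξ i‖ ≤ H) →
      CubeFree (κ r d) {z : ℂ | z ∈ LatSet μ H ∧ badR ξ d A C H z}) : CFam κ (LatSet μ) := by
  refine ⟨fun H H' _ hHH' z hz => ?_, ⟨∑ j, ‖μ j‖, fun H hH z hz => ?_⟩, h⟩
  · obtain ⟨w, hw, rfl⟩ := hz
    exact ⟨w, fun j => (hw j).trans hHH', rfl⟩
  · obtain ⟨w, hw, rfl⟩ := hz
    refine (norm_sum_le _ _).trans ?_
    rw [Finset.sum_mul]
    refine Finset.sum_le_sum fun j _ => ?_
    rw [norm_mul, mul_comm, Complex.norm_intCast]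
    exact mul_le_mul_of_nonneg_left (hw j) (norm_nonneg _)

lemma aux_div (a p x e : ℝ) (hx : 0 < x) : a * x ^ (-e) * p = (a * p) / x ^ e := by
  rw [Real.rpow_neg hx.le, div_eq_mul_inv]
  ring

lemma aux_mul (a b y : ℝ) (hy : 0 ≤ y) : a * (b * y) ≤ (a * b + 1) * y := by
  nlinarith

/-- combinations of many independent logarithms at one height, uniformly in the coefficients -/
theorem aapLatU (hPKG : T_PKG) (hEVP : T_EVP) (hMNR : T_MNR) (hBF : BakerFeldman)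
    (hBFF : T_BFF) (hG : T_GCR) (hLAT : T_LAT) (r n d : ℕ) :
    ∃ (M₀ : ℕ) (C₁ c : ℝ), 0 < C₁ ∧
    0 < c ∧ ∀ M : ℕ, M₀ ≤ M → ∀ μ : Fin M → ℂ, LinearIndependent ℚ μ →
    (∀ j, IsAlgebraic ℚ (Complex.exp (μ j))) → ∀ A : ℝ, ∃ C : ℝ, 0 < C ∧ ∀ H : ℝ, 2 ≤ H →
    ∀ ξ : Fin r → ℂ, (∀ i, ‖ξ i‖ ≤ H) →
    ∀ (V : Fin M → Finset ℤ) (N : ℕ), 1 ≤ N → (∀ j, N ≤ (V j).card) →
    (∀ j, ∀ v ∈ V j, |(v : ℝ)| ≤ H) →
    (Set.ncard {w : Fin n → Fin M → ℤ | (∀ i, w i ∈ Fintype.piFinset V) ∧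
      badRN ξ d A C H (fun i => ∑ j, (w i j : ℂ) * μ j)} : ℝ) ≤
      C₁ * (N : ℝ) ^ (-c) * ((Fintype.piFinset V).card : ℝ) ^ n := by
  classical
  choose κ hκ using cuh hPKG hEVP hMNR hBF hBFF hG
  obtain ⟨k, hk⟩ := aapn_fam κ r n d
  obtain ⟨C1, hC1, h1⟩ := hLAT k
  refine ⟨k + 1, n * C1 + 1, 1 / 2 ^ (k + 1), by positivity, by positivity,
    fun M hM μ hμ halg A => ?_⟩
  obtain ⟨C, hC, h2⟩ := hk (LatSet μ) (latFam κ μ (fun r d A => hκ r d M μ hμ halg A)) A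
  refine ⟨C, hC, fun H hH ξ hξ V N hN hV hVH => ?_⟩
  have hN0 : (0 : ℝ) < (N : ℝ) := by exact_mod_cast hN
  have hNc : (0 : ℝ) < (N : ℝ) ^ ((1 : ℝ) / 2 ^ (k + 1)) := Real.rpow_pos_of_pos hN0 _
  have hNc' : (0 : ℝ) < (N : ℝ) ^ (-((1 : ℝ) / 2 ^ (k + 1))) := Real.rpow_pos_of_pos hN0 _
  set Ω : Finset (Fin M → ℤ) := Fintype.piFinset V with hΩ
  set z : (Fin M → ℤ) → ℂ := fun w => ∑ j, (w j : ℂ) * μ j with hz
  have hcardP : (Ω.card : ℝ) = ∏ j, ((V j).card : ℝ) := by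
    rw [hΩ, Fintype.card_piFinset]
    push_cast
    rfl
  have hinj : ∀ a ∈ Ω, ∀ b ∈ Ω, z a = z b → a = b := by
    intro a _ b _ h
    have h3 : ∑ j, ((a j - b j : ℤ) : ℚ) • μ j = 0 := by
      have h4 : ∑ j, ((a j - b j : ℤ) : ℚ) • μ j =
          ∑ j, (a j : ℂ) * μ j - ∑ j, (b j : ℂ) * μ j := by
        rw [← Finset.sum_sub_distrib]
        refine Finset.sum_congr rfl fun j _ => ?_
        rw [Rat.smul_def]
        push_cast
        ring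
      rw [h4]
      exact sub_eq_zero.2 h
    have h5 := Fintype.linearIndependent_iff.1 hμ _ h3
    funext j
    have h6 := h5 j
    have h7 : a j - b j = 0 := by exact_mod_cast h6
    omega
  have hcard : (Ω.image z).card = Ω.card :=
    Finset.card_image_of_injOn (fun a ha b hb h => hinj a ha b hb h)
  have h3 := h2 H hH ξ hξ (Ω.image z) (C1 * (N : ℝ) ^ (-((1 : ℝ) / 2 ^ (k + 1)))) (by
    intro x hx
    rw [Finset.mem_image] at hx
    obtain ⟨w, hw, rfl⟩ := hx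
    rw [hΩ, Fintype.mem_piFinset] at hw
    exact ⟨w, fun j => hVH j _ (hw j), rfl⟩) (by positivity) (by
    intro B hB
    have h3 := h1 B hB M hM μ hμ V N hN hV
    rw [hcard, hcardP]
    have h6 : {x : ℂ | x ∈ Ω.image z ∧ x ∈ B} =
        z '' {w : Fin M → ℤ | (∀ j, w j ∈ V j) ∧ ∑ j, (w j : ℂ) * μ j ∈ B} := by
      ext x
      simp only [Set.mem_setOf_eq, Finset.mem_image, Set.mem_image, hΩ, Fintype.mem_piFinset]
      constructor
      · rintro ⟨⟨a, ha, rfl⟩, hw⟩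
        exact ⟨a, ⟨ha, hw⟩, rfl⟩
      · rintro ⟨a, ⟨ha, hw⟩, rfl⟩
        exact ⟨⟨a, ha, rfl⟩, hw⟩
    rw [h6]
    have hfin : ({w : Fin M → ℤ | (∀ j, w j ∈ V j) ∧ ∑ j, (w j : ℂ) * μ j ∈ B}).Finite := by
      refine (Ω.finite_toSet).subset ?_
      intro w hw
      rw [Finset.mem_coe, hΩ, Fintype.mem_piFinset]
      exact hw.1
    rw [aux_div C1 _ (N : ℝ) _ hN0, le_div_iff₀ hNc]
    refine le_trans ?_ h3
    refine mul_le_mul_of_nonneg_right ?_ hNc.le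
    exact_mod_cast Set.ncard_image_le hfin)
  rw [hcard] at h3
  have h4 : (Set.ncard {w : Fin n → Fin M → ℤ | (∀ i, w i ∈ Ω) ∧
      badRN ξ d A C H (fun i => z (w i))} : ℝ) ≤
      Set.ncard {a : Fin n → ℂ | (∀ i, a i ∈ Ω.image z) ∧ badRN ξ d A C H a} := by
    exact_mod_cast ncard_index Ω z hinj ξ d A C H
  refine (h4.trans h3).trans ?_
  refine mul_le_mul_of_nonneg_right ?_ (pow_nonneg (Nat.cast_nonneg _) _)
  exact aux_mul _ _ _ hNc'.le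

end Pool.Agent.H72.AAP
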