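import Pool.Agent.H72.BF.Targets6

open Finset Filter

namespace Pool.Agent.H72.AAP

open Pool.Agent.H72.BF (RelR T_GCR badR)

/-! Targets of the board aap_modules (MP_3cf473_nt): the inequality of the problem for almost all
tuples of logarithms, with an explicit rate. -/

noncomputable section

/-- a set of `k`-tuples without a combinatorial box `2 × ... × 2` is small (Erdős 1964) -/
def T_BOX : Prop := ∀ k : ℕ, ∃ C : ℝ, 0 < C ∧ ∀ (α : Type) [DecidableEq α]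
  (A : Fin k → Finset α) (N : ℕ), 1 ≤ N → (∀ i, N ≤ (A i).card) → ∀ S : Finset (Fin k → α),
  (∀ a ∈ S, ∀ i, a i ∈ A i) →
  (∀ a b : Fin k → α, (∀ i, a i ≠ b i) →
    ∃ I : Finset (Fin k), (fun i => if i ∈ I then b i else a i) ∉ S) →
  (S.card : ℝ) * (N : ℝ) ^ ((1 : ℝ) / 2 ^ k) ≤ C * ∏ i, ((A i).card : ℝ)

/-- `B` contains no cube of dimension larger than `κ` with `ℚ`-linearly independent sides -/
def CubeFree (κ : ℕ) (B : Set ℂ) : Prop := ∀ (v : ℂ) (k : ℕ) (u : Fin k → ℂ),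
  LinearIndependent ℚ u → (∀ I : Finset (Fin k), v + ∑ i ∈ I, u i ∈ B) → k ≤ κ

/-- cube free sets in groups of large rank -/
def T_LAT : Prop := ∀ κ : ℕ, ∃ C : ℝ, 0 < C ∧ ∀ B : Set ℂ, CubeFree κ B → ∀ M : ℕ, κ + 1 ≤ M →
  ∀ μ : Fin M → ℂ, LinearIndependent ℚ μ → ∀ (V : Fin M → Finset ℤ) (N : ℕ), 1 ≤ N →
  (∀ j, N ≤ (V j).card) →
  (Set.ncard {w : Fin M → ℤ | (∀ j, w j ∈ V j) ∧ ∑ j, (w j : ℂ) * μ j ∈ B} : ℝ) *
    (N : ℝ) ^ ((1 : ℝ) / 2 ^ (κ + 1)) ≤ C * ∏ j, ((V j).card : ℝ)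

/-- an inequality of Hall-Tenenbaum type -/
def T_HTI : Prop := ∃ C : ℝ, 0 < C ∧ ∀ f : ℕ → ℝ, (∀ n, 0 ≤ f n) →
  (∀ q m : ℕ, 1 ≤ q → 1 ≤ m → f (q * m) ≤ f m) → ∀ x : ℕ, 1 ≤ x →
  (∑ n ∈ Icc 1 x, f n) * Real.log x ≤ C * x * ∑ n ∈ Icc 1 x, f n / n

/-- the number of distinct prime factors above `y` -/
def omegaY (y : ℝ) (n : ℕ) : ℕ := (n.primeFactors.filter (fun p : ℕ => y < (p : ℝ))).card

/-- Euler product bound -/
def T_EUL : Prop := ∀ (y z : ℝ), 0 ≤ z → z ≤ 1 → ∀ x : ℕ,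
  ∑ n ∈ Icc 1 x, z ^ omegaY y n / (n : ℝ) ≤
    Real.exp (∑ p ∈ (Icc 1 x).filter Nat.Prime,
      (if y < (p : ℝ) then z else 1) / ((p : ℝ) - 1))

/-- the sum of the reciprocals of primes -/
def T_MPR : Prop := ∃ c : ℝ, 0 < c ∧ ∀ t : ℕ, 3 ≤ t →
  ∑ p ∈ (Icc 1 t).filter Nat.Prime, 1 / ((p : ℝ) - 1) ≤ c * (Real.log (Real.log t) + 1)

/-- integers with few prime factors above a power of the logarithm -/
def T_SM1 : Prop := ∀ (k : ℕ) (A : ℝ), 0 < A → ∃ C c : ℝ, 0 < C ∧ 0 < c ∧ ∀ x : ℕ, 3 ≤ x →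
  (((Finset.Icc 1 x).filter (fun a : ℕ =>
    (a.primeFactors.filter (fun p : ℕ => (Real.log x) ^ A < (p : ℝ))).card < k)).card : ℝ) *
    Real.log x ≤ C * x * (Real.log (Real.log x)) ^ c

/-- sets of integers without multiplicative cubes, all elements with many large prime factors -/
def T_SM2 : Prop := ∀ k : ℕ, ∃ A C : ℝ, 0 < A ∧ 0 < C ∧ ∀ x : ℕ, 3 ≤ x → ∀ S : Finset ℕ,
  S ⊆ Finset.Icc 1 x →
  (∀ a ∈ S, k ≤ (a.primeFactors.filter (fun p : ℕ => (Real.log x) ^ A < (p : ℝ))).card) →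
  (∀ (p : Fin k → Fin 2 → ℕ) (m : ℕ), (∀ i e, (p i e).Prime) →
    Function.Injective (fun ie : Fin k × Fin 2 => p ie.1 ie.2) →
    ∃ ε : Fin k → Fin 2, m * ∏ i, p i (ε i) ∉ S) →
  (S.card : ℝ) * Real.log x ≤ C * x

/-- cube free sets among the logarithms of integers -/
def T_INTG : Prop := ∀ κ : ℕ, ∃ C c : ℝ, 0 < C ∧ 0 < c ∧ ∀ B : Set ℂ, CubeFree κ B →
  ∀ x : ℕ, 3 ≤ x →
  (Set.ncard {a : ℕ | 1 ≤ a ∧ a ≤ x ∧ (Real.log a : ℂ) ∈ B} : ℝ) * Real.log x ≤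
    C * x * (Real.log (Real.log x)) ^ c

/-- at every height the exceptional set contains no large cubes -/
def T_CUF : Prop := ∀ r d : ℕ, ∃ κ : ℕ, ∀ X : Finset ℂ, (∀ z ∈ X, IsAlgebraic ℚ (Complex.exp z)) →
  ∀ A : ℝ, ∃ C : ℝ, 0 < C ∧ ∀ H : ℝ, 2 ≤ H → ∀ ξ : Fin r → ℂ, (∀ i, ‖ξ i‖ ≤ H) →
  CubeFree κ {z : ℂ | z ∈ X ∧ badR ξ d A C H z}

end

end Pool.Agent.H72.AAP
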