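import Pool.Agent.H72.AAP.Targets
import Pool.Agent.H72.BF.AARN

open Finset Filter

namespace Pool.Agent.H72.AAP

open Pool.Agent.H72.BF (RelR T_GCR badR badRN)

noncomputable section

/-- from cube free sets to tuples -/
def T_AAPN : Prop := ∀ r n d : ℕ, ∃ κ : ℕ, ∀ (X : Finset ℂ) (ε : ℝ),
  (∀ z ∈ X, IsAlgebraic ℚ (Complex.exp z)) → 0 ≤ ε →
  (∀ B : Set ℂ, CubeFree κ B → (Set.ncard {z : ℂ | z ∈ X ∧ z ∈ B} : ℝ) ≤ ε * X.card) →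
  ∀ A : ℝ, ∃ C : ℝ, 0 < C ∧ ∀ H : ℝ, 2 ≤ H → ∀ ξ : Fin r → ℂ, (∀ i, ‖ξ i‖ ≤ H) →
  (Set.ncard {a : Fin n → ℂ | (∀ i, a i ∈ X) ∧ badRN ξ d A C H a} : ℝ) ≤
    n * ε * (X.card : ℝ) ^ n

end

end Pool.Agent.H72.AAP
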